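import Mathlib
import Pool.Agent.V11242.RF.Defs

/-!
# Entangled sets, in the forcing language and outside of it

The elements of `2^ω` are identified with the subsets of `ω`; they are ordered lexicographically.
-/

set_option autoImplicit false

namespace Pool.Agent.V11242.EN

open Pool.Agent.TH773.PSet Pool.Agent.V11242.RF

universe u

section Forcing

variable {P : Type u} [Preorder P]

/-- The elements `x` and `y` of `2^ω` have the same bit with index `k`. -/
def SameBit (x y : ℕ → Set P) (k : ℕ) : Set P :=
  fand (fimp (meets (x k)) (meets (y k))) (fimp (meets (y k)) (meets (x k)))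

/-- The element `x` of `2^ω` is smaller than `y` in the lexicographic order. -/
def Lt (x y : ℕ → Set P) : Set P :=
  fex fun k => fand (fall fun i => fall fun _ : i < k => SameBit x y i)
    (fand (fnot (meets (x k))) (meets (y k)))

variable (P) in
/-- There is a map from `K` onto `2^ω`. -/
def EveryReal (K : Type) : Set P :=
  fex fun E : K → ℕ → Set P => fall fun x : ℕ → Set P => fex fun k => fall fun n =>
    SameBit x (E k) n

variable (P) in
/-- No function from `L` to `K` is onto. -/
def NoOnto (L K : Type) : Set P :=
  fnot (fex fun R : L → K → Set P => fand (IsFun R) (fall fun k => fex fun l => meets (R l k)))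

variable (P) in
/-- There is a family `f` of functions from `ω` to `ω` which is indexed by `L`, such that for all
`g` there is `l` with `f l n ≠ g n` for all but finitely many `n`. -/
def EvDifferent (L : Type) : Set P :=
  fex fun f : L → ℕ → ℕ → Set P => fand (fall fun l => IsFun (f l))
    (fall fun g : ℕ → ℕ → Set P => fimp (IsFun g) (fex fun l => fex fun N : ℕ =>
      fall fun n => fall fun _ : N ≤ n => fall fun v =>
        fnot (fand (meets (f l n v)) (meets (g n v)))))

/-- The members of the family `e` of elements of `2^ω` are pairwise different. -/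
def Distinct {S : Type} (e : S → ℕ → Set P) : Set P :=
  fall fun s => fall fun s' => fall fun _ : s ≠ s' => fnot (fall fun m => SameBit (e s) (e s') m)

/-- There are no two different `k` and `k'` such that `e (k, i) < e (k', i)` for all `i < n`, but
not `e (k, n) < e (k', n)`. -/
def AvoidsType {K : Type} {n : ℕ} (e : K × Fin (n + 1) → ℕ → Set P) : Set P :=
  fall fun k => fall fun k' => fall fun _ : k ≠ k' =>
    fnot (fand (fall fun i : Fin n => Lt (e (k, i.castSucc)) (e (k', i.castSucc)))
      (fnot (Lt (e (k, Fin.last n)) (e (k', Fin.last n)))))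

/-- All values of the function `w` are one-to-one tuples, and any two values are disjoint. -/
def DisjointTuples {K S : Type} {n : ℕ} (w : K → (Fin n → S) → Set P) : Set P :=
  fand (fall fun ξ => fall fun u => fall fun _ : ¬ Function.Injective u => fnot (meets (w ξ u)))
    (fall fun ξ => fall fun η => fall fun _ : ξ ≠ η => fall fun u => fall fun v =>
      fall fun _ : ∃ i j, u i = v j => fnot (fand (meets (w ξ u)) (meets (w η v))))

/-- If `t i` is false, `e (u i) < e (v i)`; if `t i` is true, this is not the case. -/
def TypeAt {S : Type} (e : S → ℕ → Set P) {n : ℕ} (t : Fin n → Bool) (u v : Fin n → S)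
    (i : Fin n) : Set P :=
  cond (t i) (fnot (Lt (e (u i)) (e (v i)))) (Lt (e (u i)) (e (v i)))

/-- For each function `w` which maps the elements of `K` to pairwise disjoint one-to-one
`n`-tuples (of indices of members of the family `e`), and for each type `t`, there are different
elements `ξ` and `η` of `K` such that the type of the pair of the `n`-tuples of elements of `2^ω`
given by `w ξ` and `w η` is `t`. -/
def EntangledFamily (K : Type) {S : Type} (e : S → ℕ → Set P) (n : ℕ) : Set P :=
  fall fun w : K → (Fin n → S) → Set P => fimp (fand (IsFun w) (DisjointTuples w))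
    (fall fun t : Fin n → Bool => fex fun ξ => fex fun η => fex fun _ : ξ ≠ η =>
      fall fun u => fall fun v => fimp (fand (meets (w ξ u)) (meets (w η v)))
        (fall fun i => TypeAt e t u v i))

variable (P) in
/-- The sentence `PhiFor K L` in the forcing language. -/
def PhiHolds (K L : Type) : Set P :=
  fand (EveryReal P K) (fand (NoOnto P L K) (fand (EvDifferent P L)
    (fall fun n : ℕ => fall fun _ : 1 < n => fex fun e : K × Fin (n + 1) → ℕ → Set P =>
      fand (Distinct e) (fand (AvoidsType e) (EntangledFamily K e n)))))

end Forcing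

/-! ### The same sentence, outside of the forcing language -/

/-- The lexicographic order of `2^ω`. -/
def LexLt (x y : ℕ → Bool) : Prop := ∃ k, (∀ i < k, x i = y i) ∧ x k = false ∧ y k = true

/-- All elements of `2^ω` can be indexed by `K`; `L` cannot be mapped onto `K`; there is a family
`f` of functions, indexed by `L`, such that each `g` differs from some member of the family at
almost all places; and for all `n > 1` there are pairwise different `e (k, i) ∈ 2^ω` (for `k ∈ K`
and `i ≤ n`) such that:
* there are no different `k` and `k'` with `e (k, i) < e (k', i)` for all `i < n`, but not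
  `e (k, n) < e (k', n)`;
* for each family `w` of pairwise disjoint one-to-one `n`-tuples of indices, which is indexed by
  `K`, and each type `t : n → 2` there are different `ξ` and `η` such that the pair of
  the `n`-tuples with indices `w ξ` and `w η` has the type `t`. -/
def PhiFor (K L : Type) : Prop :=
  (∃ E : K → ℕ → Bool, ∀ x, ∃ k, x = E k) ∧
  (¬ ∃ R : L → K, Function.Surjective R) ∧
  (∃ f : L → ℕ → ℕ, ∀ g : ℕ → ℕ, ∃ l, ∃ N, ∀ n, N ≤ n → f l n ≠ g n) ∧
  ∀ n : ℕ, 1 < n → ∃ e : K × Fin (n + 1) → ℕ → Bool,
    (∀ s s', s ≠ s' → ¬ ∀ m, e s m = e s' m) ∧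
    (∀ k k', k ≠ k' → ¬ ((∀ i : Fin n, LexLt (e (k, i.castSucc)) (e (k', i.castSucc))) ∧
      ¬ LexLt (e (k, Fin.last n)) (e (k', Fin.last n)))) ∧
    ∀ w : K → Fin n → K × Fin (n + 1),
      (∀ ξ, Function.Injective (w ξ)) → (∀ ξ η, ξ ≠ η → ∀ i j, w ξ i ≠ w η j) →
      ∀ t : Fin n → Bool, ∃ ξ η, ξ ≠ η ∧
        ∀ i, (LexLt (e (w ξ i)) (e (w η i)) ↔ t i = false)

end Pool.Agent.V11242.EN
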