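import Mathlib

/-!
# Entangled sets of reals and the covering number of the meager ideal
-/

set_option autoImplicit false

namespace Pool.Agent.V11242.EN

open Cardinal

/-- The set `E` of reals is `(κ, n)`-entangled: for every family `F` of `κ` many pairwise disjoint
one-to-one `n`-tuples of elements of `E` and every type `t` there are different `a` and `b` in `F`
such that, for all `i`, `a i < b i` if and only if `t i = 0` (that is, `t i = false`). -/
def Entangled (κ : Cardinal.{0}) (n : ℕ) (E : Set ℝ) : Prop :=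
  ∀ F : Set (Fin n → ℝ), #F = κ → (∀ a ∈ F, Function.Injective a ∧ ∀ i, a i ∈ E) →
    (∀ a ∈ F, ∀ b ∈ F, a ≠ b → ∀ i j, a i ≠ b j) →
    ∀ t : Fin n → Bool, ∃ a ∈ F, ∃ b ∈ F, a ≠ b ∧ ∀ i, (a i < b i ↔ t i = false)

/-- For every `n > 1` there is a set of reals which is `(𝔠, n)`-entangled, but
not `(𝔠, n + 1)`-entangled. -/
def Star : Prop := ∀ n : ℕ, 1 < n → ∃ E : Set ℝ, Entangled 𝔠 n E ∧ ¬ Entangled 𝔠 (n + 1) E

/-- The covering number of the meager ideal: the least size of a family of meager sets which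
covers the Baire space. -/
noncomputable def covB : Cardinal.{0} :=
  sInf {c | ∃ M : Set (Set (ℕ → ℕ)), (∀ X ∈ M, IsMeagre X) ∧ ⋃₀ M = Set.univ ∧ #M = c}

end Pool.Agent.V11242.EN
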