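import Mathlib
import Pool.Agent.V11242.EN.Defs
import Pool.Agent.V11242.EN.RealDefs

/-!
# The sentence implies that the continuum is larger than `cov(B)` and that `(∗)` holds
-/

set_option autoImplicit false

namespace Pool.Agent.V11242.EN

open Cardinal Set

theorem isMeagre_evDifferent (f : ℕ → ℕ) : IsMeagre {g : ℕ → ℕ | ∃ N, ∀ n, N ≤ n → f n ≠ g n} := by
  have h1 : {g : ℕ → ℕ | ∃ N, ∀ n, N ≤ n → f n ≠ g n} =
      ⋃ N : ℕ, {g : ℕ → ℕ | ∀ n, N ≤ n → f n ≠ g n} := by
    ext g
    simp
  rw [h1]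
  refine isMeagre_iUnion fun N => IsNowhereDense.isMeagre ?_
  have hcl : IsClosed {g : ℕ → ℕ | ∀ n, N ≤ n → f n ≠ g n} := by
    have : {g : ℕ → ℕ | ∀ n, N ≤ n → f n ≠ g n} =
        ⋂ n : ℕ, ⋂ (_ : N ≤ n), {g : ℕ → ℕ | g n = f n}ᶜ := by
      ext g
      simp only [mem_ofPred_eq, mem_iInter, mem_compl_iff]
      exact forall_congr' fun n => forall_congr' fun _ => ne_comm
    rw [this]
    refine isClosed_iInter fun n => isClosed_iInter fun _ => IsOpen.isClosed_compl ?_
    have hc : Continuous fun g : ℕ → ℕ => g n := continuous_apply n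
    exact (isOpen_discrete ({f n} : Set ℕ)).preimage hc
  rw [IsNowhereDense, hcl.closure_eq, Set.eq_empty_iff_forall_notMem]
  intro g hg
  obtain ⟨U, hU, hUo, hgU⟩ := mem_interior.1 hg
  obtain ⟨I, u, hu, hsub⟩ := isOpen_pi_iff.1 hUo g hgU
  obtain ⟨m, hm⟩ := I.finite_toSet.bddAbove
  have h2 : (fun i => if i = max N (m + 1) then f i else g i) ∈ U := by
    apply hsub
    intro i hi
    have h3 : i ≤ m := hm hi
    have h4 : i ≠ max N (m + 1) := by
      have := le_max_right N (m + 1)
      omega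
    simp only [h4, if_false]
    exact (hu i hi).2
  have h3 := hU h2 (max N (m + 1)) (le_max_left _ _)
  simp at h3

/-- The order embedding of `2^ω` into the reals. -/
noncomputable def emb (x : ℕ → Bool) : ℝ := cantorFunction (1 / 3) x

theorem emb_lt {x y : ℕ → Bool} (h : LexLt x y) : emb x < emb y := by
  obtain ⟨k, h1, h2, h3⟩ := h
  exact increasing_cantorFunction (by norm_num) (by norm_num) h1 h2 h3

theorem lex_total {x y : ℕ → Bool} (h : ¬ ∀ m, x m = y m) : LexLt x y ∨ LexLt y x := by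
  classical
  have hex : ∃ m, x m ≠ y m := not_forall.1 h
  have h1 := Nat.find_spec hex
  have h2 : ∀ i < Nat.find hex, x i = y i := fun i hi => not_not.1 (Nat.find_min hex hi)
  cases hx : x (Nat.find hex) <;> cases hy : y (Nat.find hex)
  · exact absurd (hx.trans hy.symm) h1
  · exact Or.inl ⟨_, h2, hx, hy⟩
  · exact Or.inr ⟨_, fun i hi => (h2 i hi).symm, hy, hx⟩
  · exact absurd (hx.trans hy.symm) h1

theorem emb_lt_iff {x y : ℕ → Bool} : emb x < emb y ↔ LexLt x y := by
  refine ⟨fun h => ?_, emb_lt⟩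
  by_contra hne
  by_cases heq : ∀ m, x m = y m
  · rw [funext heq] at h
    exact lt_irrefl _ h
  · rcases lex_total heq with h1 | h1
    · exact hne h1
    · exact lt_asymm h (emb_lt h1)

variable {K L : Type}

theorem mk_K (h : PhiFor K L) : #K = 𝔠 := by
  obtain ⟨⟨E, hE⟩, -, -, h4⟩ := h
  apply le_antisymm
  · obtain ⟨e, he, -⟩ := h4 2 (by norm_num)
    have hinj : Function.Injective fun k : K => e (k, 0) := by
      intro k k' hkk
      by_contra hne
      refine he (k, 0) (k', 0) (fun h => hne (congrArg Prod.fst h)) fun m => ?_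
      exact congrFun hkk m
    have := mk_le_of_injective hinj
    have h2 : #(ℕ → Bool) = 𝔠 := by
      rw [← two_power_aleph0]
      simp
    rwa [h2] at this
  · have hsurj : Function.Surjective E := fun x => by
      obtain ⟨k, hk⟩ := hE x
      exact ⟨k, hk.symm⟩
    have := mk_le_of_surjective hsurj
    have h2 : #(ℕ → Bool) = 𝔠 := by
      rw [← two_power_aleph0]
      simp
    rwa [h2] at this

theorem covB_lt (h : PhiFor K L) : covB < 𝔠 := by
  have hK := mk_K h
  have hne : Nonempty K := by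
    rw [← mk_ne_zero_iff, hK]
    exact continuum_ne_zero
  obtain ⟨-, h2, ⟨f, hf⟩, -⟩ := h
  have hL : #L < #K := by
    rw [← not_le]
    rintro ⟨e⟩
    exact h2 ⟨Function.invFun e, Function.invFun_surjective e.injective⟩
  have h3 : covB ≤ #(range fun l => {g : ℕ → ℕ | ∃ N, ∀ n, N ≤ n → f l n ≠ g n}) := by
    refine csInf_le' ⟨_, ?_, ?_, rfl⟩
    · rintro _ ⟨l, rfl⟩
      exact isMeagre_evDifferent _
    · refine eq_univ_of_forall fun g => ?_
      obtain ⟨l, hl⟩ := hf g
      exact mem_sUnion.2 ⟨_, ⟨l, rfl⟩, hl⟩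
  exact (h3.trans mk_range_le).trans_lt (hL.trans_eq hK)

theorem star (h : PhiFor K L) : Star := by
  classical
  have hK := mk_K h
  obtain ⟨-, -, -, h4⟩ := h
  intro n hn
  obtain ⟨e, he1, he2, he3⟩ := h4 n hn
  have hinj : Function.Injective fun s => emb (e s) := by
    intro s s' hss
    by_contra hne
    rcases lex_total (he1 s s' hne) with h1 | h1
    · exact (emb_lt h1).ne hss
    · exact (emb_lt h1).ne' hss
  refine ⟨range fun s => emb (e s), ?_, ?_⟩
  · intro F hF hF1 hF2 t
    obtain ⟨g⟩ : Nonempty (K ≃ F) := Cardinal.eq.1 (hK.trans hF.symm)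
    have h5 : ∀ (k : K) (i : Fin n), ∃ s, emb (e s) = (g k).1 i := fun k i =>
      (hF1 _ (g k).2).2 i
    choose w hw using h5
    obtain ⟨ξ, η, hne, hξη⟩ := he3 w (fun ξ i j hij => by
        apply (hF1 _ (g ξ).2).1
        rw [← hw, ← hw, hij])
      (fun ξ η hne i j hij => by
        have hne' : (g ξ).1 ≠ (g η).1 := fun h => hne (g.injective (Subtype.ext h))
        apply hF2 _ (g ξ).2 _ (g η).2 hne' i j
        rw [← hw, ← hw, hij]) t
    refine ⟨_, (g ξ).2, _, (g η).2, fun h => hne (g.injective (Subtype.ext h)), fun i => ?_⟩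
    rw [← hw, ← hw, emb_lt_iff]
    exact hξη i
  · intro hent
    let T : K → Fin (n + 1) → ℝ := fun k i => emb (e (k, i))
    have hT : Function.Injective T := by
      intro k k' hkk
      have := hinj (congrFun hkk 0 : emb (e (k, 0)) = emb (e (k', 0)))
      exact congrArg Prod.fst this
    obtain ⟨_, ⟨k, rfl⟩, _, ⟨k', rfl⟩, hne, hab⟩ := hent (range T) (by
        rw [mk_range_eq T hT, hK]) (by
        rintro _ ⟨k, rfl⟩
        refine ⟨fun i j hij => ?_, fun i => ⟨(k, i), rfl⟩⟩
        exact congrArg Prod.snd (hinj hij)) (by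
        rintro _ ⟨k, rfl⟩ _ ⟨k', rfl⟩ hne i j hij
        apply hne
        have hkk : k = k' := congrArg Prod.fst (hinj hij)
        rw [hkk])
      (Fin.snoc (fun _ => false) true)
    refine he2 k k' (fun h => hne (by rw [h])) ⟨fun i => ?_, fun hlt => ?_⟩
    · rw [← emb_lt_iff]
      exact (hab i.castSucc).2 (by simp)
    · have h5 := (hab (Fin.last n)).1 (emb_lt hlt)
      simp at h5

end Pool.Agent.V11242.EN
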