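import Mathlib
import Pool.Agent.V11242.RF.Pol

/-!
# Boxes and density
-/

set_option autoImplicit false
set_option linter.unusedSectionVars false

namespace Pool.Agent.V11242.EN

open Pool.Agent.TH773.PSet Pool.Agent.V11242.RF MeasureTheory Set Filter Topology

variable {I : Type}

/-- The set of all points which agree with `v` on `D`. -/
def box (D : Finset (I × ℕ)) (v : I × ℕ → Bool) : Set (I × ℕ → Bool) := {x | ∀ t ∈ D, x t = v t}

theorem box_congr {D : Finset (I × ℕ)} {v v' : I × ℕ → Bool} (h : ∀ t ∈ D, v t = v' t) :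
    box D v = box D v' := by
  ext x
  exact forall_congr' fun t => forall_congr' fun ht => by rw [h t ht]

theorem measure_box (D : Finset (I × ℕ)) (v : I × ℕ → Bool) :
    coinProduct I (box D v) = (2 : ENNReal)⁻¹ ^ D.card := by
  have hs : box D v = Set.pi D fun t => {v t} := by
    ext x
    simp [box, Set.mem_pi]
  rw [hs, coinProduct, Measure.infinitePi_pi _ fun _ _ => measurableSet_singleton _]
  simp only [coin_singleton]
  rw [Finset.prod_const]

theorem dep_box {T : Set (I × ℕ)} (D : Finset (I × ℕ)) (hD : ∀ t ∈ D, t ∈ T)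
    (v : I × ℕ → Bool) : Dep T (box D v) := by
  have : box D v = ⋂ t : I × ℕ, ⋂ (_ : t ∈ D), {x : I × ℕ → Bool | x t = v t} := by
    ext x
    simp [box]
  have hc : (D : Set (I × ℕ)).Countable := D.countable_toSet
  rw [this]
  have e : (⋂ t : I × ℕ, ⋂ (_ : t ∈ D), {x : I × ℕ → Bool | x t = v t}) =
      ⋂ t : D, {x : I × ℕ → Bool | x t.1 = v t.1} := by
    ext x
    simp
  rw [e]
  exact Dep.iInter fun t => dep_coord' (hD t.1 t.2) _

theorem measurable_box (D : Finset (I × ℕ)) (v : I × ℕ → Bool) : MeasurableSet (box D v) :=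
  (dep_box D (fun t ht => ht) v : Dep (D : Set (I × ℕ)) _).meas

open Classical in
/-- the assignment given by a set -/
noncomputable def asg (S : Finset (I × ℕ)) (t : I × ℕ) : Bool := decide (t ∈ S)

open Classical in
theorem mem_box_filter (F : Finset (I × ℕ)) (x : I × ℕ → Bool) :
    x ∈ box F (asg (F.filter fun t => x t = true)) := by
  intro t ht
  unfold asg
  by_cases h : x t = true
  · simp [h, ht]
  · simp [h]

theorem eq_of_mem_box {F S : Finset (I × ℕ)} (hS : S ⊆ F) {x : I × ℕ → Bool}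
    (hx : x ∈ box F (asg S)) : S = (open Classical in F.filter fun t => x t = true) := by
  classical
  ext t
  rw [Finset.mem_filter]
  constructor
  · intro h
    refine ⟨hS h, ?_⟩
    rw [hx t (hS h)]
    simp [asg, h]
  · rintro ⟨h1, h2⟩
    rw [hx t h1] at h2
    simpa [asg] using h2

theorem sum_boxes {A : Set (I × ℕ → Bool)} (hA : MeasurableSet A) (F : Finset (I × ℕ)) :
    ∑ S ∈ F.powerset, coinProduct I (A ∩ box F (asg S)) = coinProduct I A := by
  classical
  rw [← measure_biUnion_finset]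
  · congr 1
    ext x
    simp only [mem_iUnion, mem_inter_iff, exists_prop]
    constructor
    · rintro ⟨_, _, h, _⟩
      exact h
    · intro h
      exact ⟨F.filter fun t => x t = true, Finset.mem_powerset.2 (Finset.filter_subset _ _), h,
        mem_box_filter F x⟩
  · intro S hS S' hS' hne
    refine Set.disjoint_left.2 fun x h3 h4 => hne ?_
    rw [eq_of_mem_box (Finset.mem_powerset.1 hS) h3.2,
      eq_of_mem_box (Finset.mem_powerset.1 hS') h4.2]
  · exact fun S _ => hA.inter (measurable_box _ _)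

/-- Every set of positive measure has almost full measure in some box. -/
theorem density {p : Set (I × ℕ → Bool)} (hp : MeasurableSet p) (hμ : coinProduct I p ≠ 0)
    (N : ℕ) : ∃ (D : Finset (I × ℕ)) (v : I × ℕ → Bool),
      coinProduct I (box D v \ p) ≤ (2 : ENNReal)⁻¹ ^ N * (2 : ENNReal)⁻¹ ^ D.card := by
  classical
  by_contra hcon
  push Not at hcon
  set μ := coinProduct I with hμdef
  let δ : ENNReal := (2 : ENNReal)⁻¹ ^ N * μ p * (2 : ENNReal)⁻¹ ^ 2
  have hδ : 0 < δ := by
    refine pos_iff_ne_zero.2 (mul_ne_zero (mul_ne_zero ?_ hμ) ?_)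
    · exact (two_pos N).ne'
    · exact (two_pos 2).ne'
  obtain ⟨t, ht, hlt⟩ := exists_measure_symmDiff_lt_of_generateFrom_isSetRing (μ := μ)
    (C := measurableCylinders fun _ : I × ℕ => Bool) isSetRing_measurableCylinders
    ⟨{univ}, countable_singleton _, by
      rintro _ rfl
      exact univ_mem_measurableCylinders _, by simp⟩
    generateFrom_measurableCylinders.symm hp hδ
  obtain ⟨F, S, hS, rfl⟩ := (mem_measurableCylinders _).1 ht
  have htm : MeasurableSet (cylinder (α := fun _ : I × ℕ => Bool) F S) := hS.cylinder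
  have h1 : ∀ R ∈ F.powerset, (2 : ENNReal)⁻¹ ^ N * μ (cylinder F S ∩ box F (asg R)) ≤
      μ ((cylinder F S \ p) ∩ box F (asg R)) := by
    intro R hR
    by_cases hne : (cylinder F S ∩ box F (asg R)).Nonempty
    · obtain ⟨x, hx1, hx2⟩ := hne
      have hsub : box F (asg R) ⊆ cylinder F S := by
        intro y hy
        rw [mem_cylinder] at hx1 ⊢
        have e : F.restrict y = F.restrict x := by
          funext t
          show y t.1 = x t.1
          rw [hy t.1 t.2, hx2 t.1 t.2]
        rw [e]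
        exact hx1
      have e1 : cylinder F S ∩ box F (asg R) = box F (asg R) := inter_eq_right.2 hsub
      have e2 : (cylinder F S \ p) ∩ box F (asg R) = box F (asg R) \ p := by
        ext y
        constructor
        · rintro ⟨⟨_, h⟩, h'⟩
          exact ⟨h', h⟩
        · rintro ⟨h', h⟩
          exact ⟨⟨hsub h', h⟩, h'⟩
      rw [e1, e2, measure_box]
      exact (hcon F (asg R)).le
    · rw [not_nonempty_iff_eq_empty.1 hne, measure_empty, mul_zero]
      exact bot_le
  have h2 : (2 : ENNReal)⁻¹ ^ N * μ (cylinder F S) ≤ μ (cylinder F S \ p) := by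
    rw [← sum_boxes htm F, ← sum_boxes (htm.diff hp) F, Finset.mul_sum]
    exact Finset.sum_le_sum h1
  have h3 : μ (cylinder F S \ p) ≤ δ := (measure_mono fun x hx => Or.inl hx).trans hlt.le
  have h4 : μ p ≤ μ (cylinder F S) + δ := by
    have : p ⊆ cylinder F S ∪ (symmDiff (cylinder F S) p) := by
      intro x hx
      by_cases h : x ∈ cylinder F S
      · exact Or.inl h
      · exact Or.inr (Or.inr ⟨hx, h⟩)
    exact (measure_mono this).trans ((measure_union_le _ _).trans (add_le_add le_rfl hlt.le))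
  have hN1 : (2 : ENNReal)⁻¹ ^ N ≤ 1 := pow_le_one' (ENNReal.inv_le_one.2 (by norm_num)) N
  have h5 : (2 : ENNReal)⁻¹ ^ N * μ p ≤ δ + δ := by
    calc (2 : ENNReal)⁻¹ ^ N * μ p ≤ (2 : ENNReal)⁻¹ ^ N * (μ (cylinder F S) + δ) :=
          mul_le_mul_right h4 _
      _ = (2 : ENNReal)⁻¹ ^ N * μ (cylinder F S) + (2 : ENNReal)⁻¹ ^ N * δ := mul_add _ _ _
      _ ≤ δ + 1 * δ := add_le_add (h2.trans h3) (mul_le_mul_left hN1 _)
      _ = δ + δ := by rw [one_mul]
  have hX0 : (2 : ENNReal)⁻¹ ^ N * μ p ≠ 0 := mul_ne_zero (two_pos N).ne' hμ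
  have hXt : (2 : ENNReal)⁻¹ ^ N * μ p ≠ ⊤ :=
    ENNReal.mul_ne_top (ne_top_of_le_ne_top (by simp) hN1) (measure_ne_top _ _)
  have h6 : δ + δ = (2 : ENNReal)⁻¹ ^ N * μ p * (2 : ENNReal)⁻¹ := by
    show (2 : ENNReal)⁻¹ ^ N * μ p * (2 : ENNReal)⁻¹ ^ 2 +
      (2 : ENNReal)⁻¹ ^ N * μ p * (2 : ENNReal)⁻¹ ^ 2 = _
    rw [← mul_add]
    congr 1
    rw [pow_two, ← mul_add, ENNReal.inv_two_add_inv_two, mul_one]
  rw [h6] at h5
  have h7 : (2 : ENNReal)⁻¹ ^ N * μ p * (2 : ENNReal)⁻¹ < (2 : ENNReal)⁻¹ ^ N * μ p := by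
    have := ENNReal.half_lt_self hX0 hXt
    rwa [div_eq_mul_inv] at this
  exact absurd h5 (not_le.2 h7)

theorem refine_one {p : Set (I × ℕ → Bool)} (hp : MeasurableSet p) {c : ENNReal} (hc : c ≠ ⊤)
    {D : Finset (I × ℕ)} {v : I × ℕ → Bool}
    (h : coinProduct I (box D v \ p) ≤ c * (2 : ENNReal)⁻¹ ^ D.card) (t : I × ℕ)
    (ht : t ∉ D) : ∃ v' : I × ℕ → Bool, (∀ s ∈ D, v' s = v s) ∧
      coinProduct I (box (open Classical in insert t D) v' \ p) ≤
        c * (2 : ENNReal)⁻¹ ^ (open Classical in insert t D).card := by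
  classical
  by_contra hcon
  push Not at hcon
  let w : Bool → I × ℕ → Bool := fun b s => if s = t then b else v s
  have hw : ∀ b, ∀ s ∈ D, w b s = v s := by
    intro b s hs
    have : s ≠ t := fun h => ht (h ▸ hs)
    simp [w, this]
  have h1 : ∀ b, box (insert t D) (w b) = box D v ∩ {x | x t = b} := by
    intro b
    ext x
    simp only [box, mem_ofPred_eq, mem_inter_iff, Finset.mem_insert, forall_eq_or_imp]
    constructor
    · rintro ⟨h2, h3⟩
      refine ⟨fun s hs => (h3 s hs).trans (hw b s hs), ?_⟩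
      simpa [w] using h2
    · rintro ⟨h2, h3⟩
      refine ⟨?_, fun s hs => (h2 s hs).trans (hw b s hs).symm⟩
      simpa [w] using h3
  have h2 : coinProduct I (box D v \ p) =
      coinProduct I (box (insert t D) (w true) \ p) +
        coinProduct I (box (insert t D) (w false) \ p) := by
    rw [← measure_union]
    · congr 1
      rw [h1, h1]
      ext x
      simp only [mem_union, Set.mem_sdiff, mem_inter_iff, mem_ofPred_eq]
      cases x t <;> simp
    · rw [Set.disjoint_left]
      rintro x ⟨hx, _⟩ ⟨hx', _⟩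
      rw [h1] at hx hx'
      have e1 : x t = true := hx.2
      have e2 : x t = false := hx'.2
      rw [e1] at e2
      exact absurd e2 (by simp)
    · exact (measurable_box _ _).diff hp
  have h3 := ENNReal.add_lt_add (hcon (w true) (hw true)) (hcon (w false) (hw false))
  rw [← h2, Finset.card_insert_of_notMem ht, pow_succ, ← mul_add, ← mul_add,
    ENNReal.inv_two_add_inv_two, mul_one] at h3
  exact absurd h (not_le.2 h3)

theorem refine_box {p : Set (I × ℕ → Bool)} (hp : MeasurableSet p) {c : ENNReal} (hc : c ≠ ⊤)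
    {D : Finset (I × ℕ)} {v : I × ℕ → Bool}
    (h : coinProduct I (box D v \ p) ≤ c * (2 : ENNReal)⁻¹ ^ D.card) (E : Finset (I × ℕ)) :
    ∃ v' : I × ℕ → Bool, (∀ s ∈ D, v' s = v s) ∧
      coinProduct I (box (open Classical in D ∪ E) v' \ p) ≤
        c * (2 : ENNReal)⁻¹ ^ (open Classical in D ∪ E).card := by
  classical
  induction E using Finset.induction_on with
  | empty => exact ⟨v, fun _ _ => rfl, by simpa using h⟩
  | insert t E _ ih =>
    obtain ⟨v1, h1, h2⟩ := ih
    by_cases ht : t ∈ D ∪ E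
    · refine ⟨v1, h1, ?_⟩
      rw [Finset.union_insert, Finset.insert_eq_of_mem ht]
      exact h2
    · obtain ⟨v2, h3, h4⟩ := refine_one hp hc h2 t ht
      refine ⟨v2, fun s hs => (h3 s (Finset.mem_union_left _ hs)).trans (h1 s hs), ?_⟩
      rw [Finset.union_insert]
      exact h4

theorem two_pow_ne_top (n : ℕ) : (2 : ENNReal)⁻¹ ^ n ≠ ⊤ :=
  ne_top_of_le_ne_top (by simp) (pow_le_one' (ENNReal.inv_le_one.2 (by norm_num)) n)

theorem two_pow_le {n m : ℕ} (h : n ≤ m) : (2 : ENNReal)⁻¹ ^ m ≤ (2 : ENNReal)⁻¹ ^ n :=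
  pow_le_pow_right_of_le_one' (ENNReal.inv_le_one.2 (by norm_num)) h

theorem two_pow_lt {n m : ℕ} (h : n < m) : (2 : ENNReal)⁻¹ ^ m < (2 : ENNReal)⁻¹ ^ n := by
  refine (two_pow_le (Nat.succ_le_of_lt h)).trans_lt ?_
  rw [pow_succ]
  have := ENNReal.half_lt_self (two_pos n).ne' (two_pow_ne_top n)
  rwa [div_eq_mul_inv] at this

/-- A set which is small relative to a box does not include any box which is not much smaller. -/
theorem pos_of_small {p : Set (I × ℕ → Bool)} {N M : ℕ} {D D' : Finset (I × ℕ)}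
    {v v' : I × ℕ → Bool} (hD : D ⊆ D') (hv : ∀ t ∈ D, v' t = v t)
    (h : coinProduct I (box D v \ p) ≤ (2 : ENNReal)⁻¹ ^ N * (2 : ENNReal)⁻¹ ^ D.card)
    (hM : D'.card ≤ D.card + M) (hN : M < N) : coinProduct I (p ∩ box D' v') ≠ 0 := by
  intro h0
  have h1 : coinProduct I (box D' v') ≤ coinProduct I (box D v \ p) := by
    have h2 : box D' v' ⊆ (p ∩ box D' v') ∪ (box D v \ p) := by
      intro x hx
      by_cases hxp : x ∈ p
      · exact Or.inl ⟨hxp, hx⟩
      · exact Or.inr ⟨fun t ht => (hx t (hD ht)).trans (hv t ht), hxp⟩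
    refine (measure_mono h2).trans ((measure_union_le _ _).trans ?_)
    rw [h0, zero_add]
  rw [measure_box] at h1
  have h3 : (2 : ENNReal)⁻¹ ^ N * (2 : ENNReal)⁻¹ ^ D.card < (2 : ENNReal)⁻¹ ^ D'.card := by
    rw [← pow_add]
    exact two_pow_lt (by omega)
  exact absurd (h1.trans h) (not_le.2 h3)

end Pool.Agent.V11242.EN
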