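import Mathlib
import Pool.Agent.V11242.EN.Density
import Pool.Agent.V11242.EN.Defs

/-!
# The names of the elements of the entangled set
-/

set_option autoImplicit false
set_option linter.unusedSectionVars false

namespace Pool.Agent.V11242.EN

open Pool.Agent.TH773.PSet Pool.Agent.V11242.RF MeasureTheory Set Filter Topology

universe u v

section Gen

variable {P : Type u} [Preorder P]

theorem reg_sameBit (x y : ℕ → Set P) (k : ℕ) : Reg (SameBit x y k) :=
  reg_fand (reg_fimp (reg_meets _).1) (reg_fimp (reg_meets _).1)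

theorem reg_lt (x y : ℕ → Set P) : Reg (Lt x y) := reg_fex _

end Gen

section Meas

variable {Ω : Type u} [MeasurableSpace Ω] {μ : Measure Ω} [IsFiniteMeasure μ]

theorem sameBit_AE {X Y : ℕ → Set (Cond μ)} {A B : ℕ → Set Ω} (hA : Meas A) (hB : Meas B)
    (hX : ∀ m, meets (X m) = AE μ (A m)) (hY : ∀ m, meets (Y m) = AE μ (B m)) (k : ℕ) :
    SameBit X Y k = AE μ {x | x ∈ A k ↔ x ∈ B k} := by
  unfold SameBit
  rw [hX, hY, fimp_AE (hA k) (hB k), fimp_AE (hB k) (hA k), fand_AE]
  congr 1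
  ext x
  simp only [mem_inter_iff, mem_union, mem_compl_iff, mem_ofPred_eq]
  tauto

theorem measurable_iff {A B : Set Ω} (hA : MeasurableSet A) (hB : MeasurableSet B) :
    MeasurableSet {x | x ∈ A ↔ x ∈ B} := by
  have : {x | x ∈ A ↔ x ∈ B} = (Aᶜ ∪ B) ∩ (Bᶜ ∪ A) := by
    ext x
    simp only [mem_inter_iff, mem_union, mem_compl_iff, mem_ofPred_eq]
    tauto
  rw [this]
  exact (hA.compl.union hB).inter (hB.compl.union hA)

/-- the set of the points at which `A` is lexicographically smaller than `B` -/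
def LtSet (A B : ℕ → Set Ω) : Set Ω :=
  {x | ∃ k, (∀ i < k, (x ∈ A i ↔ x ∈ B i)) ∧ x ∉ A k ∧ x ∈ B k}

theorem ltSet_eq (A B : ℕ → Set Ω) : LtSet A B =
    ⋃ k : ℕ, (⋂ i : ℕ, ⋂ (_ : i < k), {x | x ∈ A i ↔ x ∈ B i}) ∩ ((A k)ᶜ ∩ B k) := by
  ext x
  simp [LtSet]

theorem measurable_part {A B : ℕ → Set Ω} (hA : Meas A) (hB : Meas B) (k : ℕ) :
    MeasurableSet ((⋂ i : ℕ, ⋂ (_ : i < k), {x | x ∈ A i ↔ x ∈ B i}) ∩ ((A k)ᶜ ∩ B k)) :=
  (MeasurableSet.iInter fun i => MeasurableSet.iInter fun _ => measurable_iff (hA i) (hB i)).inter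
    ((hA k).compl.inter (hB k))

theorem measurable_ltSet {A B : ℕ → Set Ω} (hA : Meas A) (hB : Meas B) :
    MeasurableSet (LtSet A B) := by
  rw [ltSet_eq]
  exact MeasurableSet.iUnion fun k => measurable_part hA hB k

theorem lt_AE {X Y : ℕ → Set (Cond μ)} {A B : ℕ → Set Ω} (hA : Meas A) (hB : Meas B)
    (hX : ∀ m, meets (X m) = AE μ (A m)) (hY : ∀ m, meets (Y m) = AE μ (B m)) :
    Lt X Y = AE μ (LtSet A B) := by
  unfold Lt
  simp only [sameBit_AE hA hB hX hY, fall_AE]
  have h : ∀ k, fand (AE μ (⋂ i : ℕ, ⋂ (_ : i < k), {x | x ∈ A i ↔ x ∈ B i}))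
      (fand (fnot (meets (X k))) (meets (Y k))) =
      AE μ ((⋂ i : ℕ, ⋂ (_ : i < k), {x | x ∈ A i ↔ x ∈ B i}) ∩ ((A k)ᶜ ∩ B k)) := by
    intro k
    rw [hX, hY, fnot_AE (hA k), fand_AE, fand_AE]
  simp only [h]
  rw [fex_AE fun k => measurable_part hA hB k, ltSet_eq]

end Meas

/-! ### The names -/

variable {K : Type} {n : ℕ}

/-- the index of the bit with index `m` of the member `j` of a block -/
def ph (n : ℕ) (j : Fin (n + 1)) (m : ℕ) : ℕ :=
  if j.1 < n then Nat.pair j.1 m else Nat.pair (m % n) (m / n)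

/-- the members of the block with index `k` -/
def val (x : K × ℕ → Bool) (s : K × Fin (n + 1)) (m : ℕ) : Bool := x (s.1, ph n s.2 m)

/-- the set of the points at which a bit is `1` -/
def bs (s : K × Fin (n + 1)) (m : ℕ) : Set (K × ℕ → Bool) := {x | val x s m = true}

/-- the names of the members of the blocks -/
def en (s : K × Fin (n + 1)) (m : ℕ) : Set (Random K) := AE (coinProduct K) (bs s m)

theorem meas_bs (s : K × Fin (n + 1)) : Meas (bs s) := fun m =>
  (dep_coord (mem_singleton (s.1, ph n s.2 m))).meas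

theorem meets_en (s : K × Fin (n + 1)) (m : ℕ) :
    meets (en s m) = AE (coinProduct K) (bs s m) := meets_AE (meas_bs s m)

theorem mem_ltSet {x : K × ℕ → Bool} {s s' : K × Fin (n + 1)} :
    x ∈ LtSet (bs s) (bs s') ↔ LexLt (val x s) (val x s') := by
  unfold LtSet LexLt bs
  simp only [mem_ofPred_eq]
  refine exists_congr fun k => ?_
  rw [Bool.not_eq_true]
  refine and_congr_left fun _ => forall_congr' fun i => forall_congr' fun _ => ?_
  exact Bool.eq_iff_iff.symm

theorem lt_en (s s' : K × Fin (n + 1)) :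
    Lt (en s) (en s') = AE (coinProduct K) {x | LexLt (val x s) (val x s')} := by
  rw [lt_AE (meas_bs s) (meas_bs s') (meets_en s) (meets_en s')]
  congr 1
  ext x
  exact mem_ltSet

theorem measurable_lex (s s' : K × Fin (n + 1)) :
    MeasurableSet {x : K × ℕ → Bool | LexLt (val x s) (val x s')} := by
  have : {x : K × ℕ → Bool | LexLt (val x s) (val x s')} = LtSet (bs s) (bs s') := by
    ext x
    exact mem_ltSet.symm
  rw [this]
  exact measurable_ltSet (meas_bs s) (meas_bs s')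

theorem not_lexLt {x y : ℕ → Bool} (h : LexLt x y) : ¬ LexLt y x := by
  rintro ⟨k, h1, h2, h3⟩
  obtain ⟨l, h4, h5, h6⟩ := h
  rcases lt_trichotomy k l with hkl | rfl | hkl
  · rw [h4 k hkl, h2] at h3
    exact absurd h3 (by simp)
  · rw [h5] at h3
    exact absurd h3 (by simp)
  · rw [← h1 l hkl, h6] at h5
    exact absurd h5 (by simp)

theorem ph_lt {j : Fin (n + 1)} (h : j.1 < n) (m : ℕ) : ph n j m = Nat.pair j.1 m := if_pos h

theorem ph_last {j : Fin (n + 1)} (h : ¬ j.1 < n) (m : ℕ) :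
    ph n j m = Nat.pair (m % n) (m / n) := if_neg h

/-- Interleaving respects the order. -/
theorem lex_last (hn : 0 < n) (x : K × ℕ → Bool) (k k' : K)
    (h : ∀ i : Fin n, LexLt (val x (k, i.castSucc)) (val x (k', i.castSucc))) :
    LexLt (val x (k, Fin.last n)) (val x (k', Fin.last n)) := by
  choose f h1 h2 h3 using h
  have hne : (Finset.univ : Finset (Fin n)).Nonempty := ⟨⟨0, hn⟩, Finset.mem_univ _⟩
  obtain ⟨i0, -, hi0⟩ := Finset.exists_min_image Finset.univ (fun i : Fin n => n * f i + i.1) hne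
  have e1 : ∀ (k : K) (m : ℕ), val x (k, Fin.last n) m = x (k, Nat.pair (m % n) (m / n)) :=
    fun k m => congrArg (fun y => x (k, y)) (ph_last (by simp) m)
  have e2 : ∀ (k : K) (i : Fin n) (m : ℕ), val x (k, i.castSucc) m = x (k, Nat.pair i.1 m) :=
    fun k i m => congrArg (fun y => x (k, y)) (ph_lt (by simp) m)
  have e3 : (n * f i0 + i0.1) % n = i0.1 := by
    rw [Nat.mul_add_mod]
    exact Nat.mod_eq_of_lt i0.2
  have e4 : (n * f i0 + i0.1) / n = f i0 := by
    rw [Nat.mul_add_div hn, Nat.div_eq_of_lt i0.2, add_zero]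
  refine ⟨n * f i0 + i0.1, fun m hm => ?_, ?_, ?_⟩
  · rw [e1, e1]
    have hlt : m % n < n := Nat.mod_lt m hn
    have h4 := h1 ⟨m % n, hlt⟩ (m / n) (by
      by_contra hle
      have h5 := hi0 ⟨m % n, hlt⟩ (Finset.mem_univ _)
      have h6 := Nat.div_add_mod m n
      have h7 : n * f ⟨m % n, hlt⟩ ≤ n * (m / n) := Nat.mul_le_mul_left n (not_lt.1 hle)
      simp only at h5
      omega)
    rw [e2, e2] at h4
    exact h4
  · rw [e1, e3, e4]
    have h4 := h2 i0
    rw [e2] at h4
    exact h4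
  · rw [e1, e3, e4]
    have h4 := h3 i0
    rw [e2] at h4
    exact h4

theorem avoidsType (hn : 0 < n) (p : Random K) : p ∈ AvoidsType (n := n) (en (K := K)) := by
  intro k k' _ q _ hq
  obtain ⟨h1, h2⟩ := hq
  rw [lt_en, fnot_AE (measurable_lex _ _), mem_AE_iff] at h2
  have h3 : ∀ i : Fin n, ∀ᵐ x ∂(coinProduct K), x ∈ q.1 →
      LexLt (val x (k, i.castSucc)) (val x (k', i.castSucc)) := by
    intro i
    have h4 : q ∈ Lt (en (k, i.castSucc)) (en (k', i.castSucc)) := h1 i
    rw [lt_en, mem_AE_iff] at h4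
    exact h4
  refine q.2.2 (measure_eq_zero_iff_ae_notMem.2 ?_)
  filter_upwards [h2, ae_all_iff.2 h3] with x h4 h5 h6
  exact h4 h6 (lex_last hn x k k' fun i => h5 i h6)

/-- the positions of the bits of different members are different, for large indices -/
theorem pos_ne (hn : 1 < n) {s s' : K × Fin (n + 1)} (hs : s ≠ s') {m : ℕ} (hm : 0 < m) :
    (s.1, ph n s.2 m) ≠ (s'.1, ph n s'.2 m) := by
  intro h
  rw [Prod.mk.injEq] at h
  obtain ⟨h1, h2⟩ := h
  have hdiv : m / n < m := Nat.div_lt_self hm hn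
  apply hs
  refine Prod.ext h1 (Fin.ext ?_)
  by_cases h3 : s.2.1 < n <;> by_cases h4 : s'.2.1 < n
  · rw [ph_lt h3, ph_lt h4] at h2
    exact (Nat.pair_eq_pair.1 h2).1
  · rw [ph_lt h3, ph_last h4] at h2
    have := (Nat.pair_eq_pair.1 h2).2
    omega
  · rw [ph_last h3, ph_lt h4] at h2
    have := (Nat.pair_eq_pair.1 h2).2
    omega
  · have h5 := s.2.2
    have h6 := s'.2.2
    omega

theorem ph_inj (j : Fin (n + 1)) : Function.Injective (ph n j) := by
  intro m m' h
  by_cases h3 : j.1 < n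
  · rw [ph_lt h3, ph_lt h3] at h
    exact (Nat.pair_eq_pair.1 h).2
  · rw [ph_last h3, ph_last h3] at h
    obtain ⟨h1, h2⟩ := Nat.pair_eq_pair.1 h
    rw [← Nat.div_add_mod m n, ← Nat.div_add_mod m' n, h1, h2]

theorem distinct (hn : 1 < n) (p : Random K) : p ∈ Distinct (en (K := K) (n := n)) := by
  classical
  intro s s' hs q _ hq
  obtain ⟨D, v, hD⟩ := density q.2.1 q.2.2 3
  -- a large index
  obtain ⟨m, hm0, hm1, hm2⟩ : ∃ m, 0 < m ∧ (s.1, ph n s.2 m) ∉ D ∧ (s'.1, ph n s'.2 m) ∉ D := by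
    have hinj1 : Function.Injective fun m => (s.1, ph n s.2 m) := fun m m' h =>
      ph_inj _ (congrArg Prod.snd h)
    have hinj2 : Function.Injective fun m => (s'.1, ph n s'.2 m) := fun m m' h =>
      ph_inj _ (congrArg Prod.snd h)
    have hfin : ({m | (s.1, ph n s.2 m) ∈ D} ∪ {m | (s'.1, ph n s'.2 m) ∈ D} ∪ {0}).Finite :=
      ((D.finite_toSet.preimage hinj1.injOn).union
        (D.finite_toSet.preimage hinj2.injOn)).union (finite_singleton _)
    obtain ⟨m, hm⟩ := hfin.exists_notMem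
    simp only [mem_union, mem_ofPred_eq, mem_singleton_iff, not_or] at hm
    exact ⟨m, Nat.pos_of_ne_zero hm.2, hm.1.1, hm.1.2⟩
  have hne := pos_ne hn hs hm0
  let a := (s.1, ph n s.2 m)
  let b := (s'.1, ph n s'.2 m)
  let v' : K × ℕ → Bool := fun t => if t = a then true else if t = b then false else v t
  have hv : ∀ t ∈ D, v' t = v t := by
    intro t ht
    have h1 : t ≠ a := fun h => hm1 (by rw [h] at ht; exact ht)
    have h2 : t ≠ b := fun h => hm2 (by rw [h] at ht; exact ht)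
    simp [v', h1, h2]
  have h1 := pos_of_small (N := 3) (M := 2) (D' := D ∪ {a, b}) (v' := v')
    Finset.subset_union_left hv hD ((Finset.card_union_le _ _).trans
      (Nat.add_le_add_left Finset.card_le_two _)) (by norm_num)
  apply h1
  have h2 : q ∈ SameBit (en s) (en s') m := hq m
  rw [sameBit_AE (meas_bs s) (meas_bs s') (meets_en s) (meets_en s'), mem_AE_iff] at h2
  refine measure_eq_zero_iff_ae_notMem.2 ?_
  filter_upwards [h2] with x h3 h4
  have h5 := h3 h4.1
  have h6 : x a = true := (h4.2 a (by simp)).trans (by simp [v'])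
  have h7 : x b = false := (h4.2 b (by simp)).trans (by
    have : b ≠ a := fun h => hne h.symm
    simp [v', this])
  have h8 : x b = true := h5.1 h6
  rw [h7] at h8
  exact absurd h8 (by simp)

end Pool.Agent.V11242.EN
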