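import Mathlib
import Pool.Agent.V11242.EN.Names

/-!
# The combinatorial core: realizing a type by two more levels of bits
-/

set_option autoImplicit false
set_option linter.unusedSectionVars false

namespace Pool.Agent.V11242.EN

variable {K : Type} {n : ℕ}

/-- Two tuples of indices with disjoint sets of blocks and with the same pattern. -/
structure Twin (U : Bool → Fin n → K × Fin (n + 1)) : Prop where
  inj : ∀ b, Function.Injective (U b)
  disj : ∀ i j, (U true i).1 ≠ (U false j).1
  same : ∀ i, (U true i).2 = (U false i).2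
  pat : ∀ i i', (U true i).1 = (U true i').1 ↔ (U false i).1 = (U false i').1

theorem Twin.same' {U : Bool → Fin n → K × Fin (n + 1)} (hU : Twin U) (b : Bool) (i : Fin n) :
    (U b i).2 = (U true i).2 := by
  cases b
  · exact (hU.same i).symm
  · rfl

theorem Twin.pat' {U : Bool → Fin n → K × Fin (n + 1)} (hU : Twin U) (b : Bool) (i i' : Fin n) :
    (U b i).1 = (U b i').1 ↔ (U true i).1 = (U true i').1 := by
  cases b
  · exact (hU.pat i i').symm
  · rfl

theorem Twin.disj' {U : Bool → Fin n → K × Fin (n + 1)} (hU : Twin U) {b b' : Bool}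
    (h : b ≠ b') (i i' : Fin n) : (U b i).1 ≠ (U b' i').1 := by
  cases b <;> cases b'
  · exact absurd rfl h
  · exact fun h' => hU.disj i' i h'.symm
  · exact hU.disj i i'
  · exact absurd rfl h

/-- In the block of the entry `i` of the tuple, which is the last member of its block, some other
member of the block is not an entry of the tuple. -/
theorem exists_free {u : Fin n → K × Fin (n + 1)} (i : Fin n)
    (hi : ¬ (u i).2.1 < n) : ∃ j < n, ∀ i', (u i').1 = (u i).1 → (u i').2.1 ≠ j := by
  by_contra hcon
  push Not at hcon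
  have h1 : ∀ j : Fin (n + 1), ∃ i', (u i').1 = (u i).1 ∧ (u i').2 = j := by
    intro j
    by_cases hj : j.1 < n
    · obtain ⟨i', h2, h3⟩ := hcon j.1 hj
      exact ⟨i', h2, Fin.ext h3⟩
    · have h4 := (u i).2.2
      have h5 := j.2
      exact ⟨i, rfl, Fin.ext (by omega)⟩
  choose f hf1 hf2 using h1
  have hf : Function.Injective f := by
    intro j j' h
    rw [← hf2 j, ← hf2 j', h]
  have := Fintype.card_le_of_injective f hf
  simp at this

/-- the position of the decisive bit for the entry `i` -/
def dpos (U : Bool → Fin n → K × Fin (n + 1)) (M : ℕ) (j0 : Fin n → ℕ) (i : Fin n) : ℕ :=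
  if (U true i).2.1 < n then Nat.pair (U true i).2.1 (M + 1) else Nat.pair (j0 i) M

open Classical in
/-- the new bits -/
noncomputable def ex (U : Bool → Fin n → K × Fin (n + 1)) (M : ℕ) (j0 : Fin n → ℕ)
    (t : Fin n → Bool) (s : K × ℕ) : Bool :=
  decide (∃ b i, s = ((U b i).1, dpos U M j0 i) ∧ t i = b)

theorem dpos_inj {U : Bool → Fin n → K × Fin (n + 1)} (hU : Twin U) {M : ℕ} {j0 : Fin n → ℕ}
    {i i' : Fin n} (h : (U true i).1 = (U true i').1) (h' : dpos U M j0 i = dpos U M j0 i') :
    i = i' := by
  unfold dpos at h'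
  apply hU.inj true
  refine Prod.ext h (Fin.ext ?_)
  by_cases h3 : (U true i).2.1 < n <;> by_cases h4 : (U true i').2.1 < n
  · rw [if_pos h3, if_pos h4] at h'
    exact (Nat.pair_eq_pair.1 h').1
  · rw [if_pos h3, if_neg h4] at h'
    have := (Nat.pair_eq_pair.1 h').2
    omega
  · rw [if_neg h3, if_pos h4] at h'
    have := (Nat.pair_eq_pair.1 h').2
    omega
  · have h5 := (U true i).2.2
    have h6 := (U true i').2.2
    omega

theorem ex_dpos {U : Bool → Fin n → K × Fin (n + 1)} (hU : Twin U) {M : ℕ} {j0 : Fin n → ℕ}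
    (t : Fin n → Bool) (b : Bool) (i : Fin n) :
    ex U M j0 t ((U b i).1, dpos U M j0 i) = (t i == b) := by
  classical
  unfold ex
  rw [Bool.eq_iff_iff, decide_eq_true_iff, beq_iff_eq]
  constructor
  · rintro ⟨b', i', h1, h2⟩
    rw [Prod.mk.injEq] at h1
    have hb : b = b' := by
      by_contra hne
      exact hU.disj' hne i i' h1.1
    subst hb
    have hi : i = i' := dpos_inj hU ((hU.pat' b i i').1 h1.1) h1.2
    rw [hi]
    exact h2
  · intro h
    exact ⟨b, i, rfl, h⟩

theorem ex_false {U : Bool → Fin n → K × Fin (n + 1)} (hU : Twin U) {M : ℕ} {j0 : Fin n → ℕ}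
    (t : Fin n → Bool) (b : Bool) (i : Fin n) {p : ℕ}
    (hp : ∀ i', (U true i').1 = (U true i).1 → p ≠ dpos U M j0 i') :
    ex U M j0 t ((U b i).1, p) = false := by
  classical
  unfold ex
  rw [decide_eq_false_iff_not]
  rintro ⟨b', i', h1, h2⟩
  rw [Prod.mk.injEq] at h1
  have hb : b = b' := by
    by_contra hne
    exact hU.disj' hne i i' h1.1
  subst hb
  exact hp i' ((hU.pat' b i i').1 h1.1).symm h1.2

/-- The two sides have different bits at the decisive position, and the same bits before it. -/
theorem decisive {U : Bool → Fin n → K × Fin (n + 1)} (hU : Twin U) {M : ℕ} {j0 : Fin n → ℕ}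
    (hj0 : ∀ i, ¬ (U true i).2.1 < n →
      j0 i < n ∧ ∀ i', (U true i').1 = (U true i).1 → (U true i').2.1 ≠ j0 i)
    (t : Fin n → Bool) {x : K × ℕ → Bool}
    (hx1 : ∀ i, ∀ j < n, ∀ m < M, x ((U true i).1, Nat.pair j m) = x ((U false i).1, Nat.pair j m))
    (hx2 : ∀ b i, ∀ j < n, ∀ m, M ≤ m → m < M + 2 →
      x ((U b i).1, Nat.pair j m) = ex U M j0 t ((U b i).1, Nat.pair j m)) (i : Fin n) :
    ∃ k, (∀ m < k, val x (U true i) m = val x (U false i) m) ∧
      ∀ b, val x (U b i) k = (t i == b) := by
  have hn : 0 < n := lt_of_le_of_lt (Nat.zero_le _) i.2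
  by_cases hi : (U true i).2.1 < n
  · have e1 : ∀ b m, val x (U b i) m = x ((U b i).1, Nat.pair (U true i).2.1 m) := by
      intro b m
      have : val x (U b i) m = x ((U b i).1, ph n (U b i).2 m) := rfl
      rw [this, hU.same' b i, ph_lt hi]
    refine ⟨M + 1, fun m hm => ?_, fun b => ?_⟩
    · rw [e1, e1]
      rcases Nat.lt_succ_iff_lt_or_eq.1 hm with h | rfl
      · exact hx1 i _ hi m h
      · have h1 : ∀ b, x ((U b i).1, Nat.pair (U true i).2.1 m) = false := by
          intro b
          rw [hx2 b i _ hi m le_rfl (by omega)]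
          refine ex_false hU t b i fun i' h2 h3 => ?_
          unfold dpos at h3
          split_ifs at h3 with h4
          · have := (Nat.pair_eq_pair.1 h3).2
            omega
          · exact (hj0 i' h4).2 i h2.symm (Nat.pair_eq_pair.1 h3).1
        rw [h1, h1]
    · rw [e1, hx2 b i _ hi (M + 1) (by omega) (by omega)]
      have h2 : Nat.pair (U true i).2.1 (M + 1) = dpos U M j0 i := by
        unfold dpos
        rw [if_pos hi]
      rw [h2]
      exact ex_dpos hU t b i
  · obtain ⟨h1, h2⟩ := hj0 i hi
    have e1 : ∀ b m, val x (U b i) m = x ((U b i).1, Nat.pair (m % n) (m / n)) := by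
      intro b m
      have : val x (U b i) m = x ((U b i).1, ph n (U b i).2 m) := rfl
      rw [this, hU.same' b i, ph_last hi]
    have e3 : (n * M + j0 i) % n = j0 i := by
      rw [Nat.mul_add_mod]
      exact Nat.mod_eq_of_lt h1
    have e4 : (n * M + j0 i) / n = M := by
      rw [Nat.mul_add_div hn, Nat.div_eq_of_lt h1, add_zero]
    refine ⟨n * M + j0 i, fun m hm => ?_, fun b => ?_⟩
    · rw [e1, e1]
      have hlt : m % n < n := Nat.mod_lt m hn
      have hle : m / n ≤ M := by
        rw [← e4]
        exact Nat.div_le_div_right hm.le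
      rcases hle.lt_or_eq with h | h
      · exact hx1 i _ hlt _ h
      · have h3 : m % n < j0 i := by
          have := Nat.div_add_mod m n
          rw [h] at this
          omega
        rw [h]
        have h4 : ∀ b, x ((U b i).1, Nat.pair (m % n) M) = false := by
          intro b
          rw [hx2 b i _ hlt M le_rfl (by omega)]
          refine ex_false hU t b i fun i' h5 h6 => ?_
          unfold dpos at h6
          split_ifs at h6 with h7
          · have := (Nat.pair_eq_pair.1 h6).2
            omega
          · have h8 : i' = i := by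
              apply hU.inj true
              refine Prod.ext h5 (Fin.ext ?_)
              have h9 := (U true i).2.2
              have h10 := (U true i').2.2
              omega
            rw [h8] at h6
            have := (Nat.pair_eq_pair.1 h6).1
            omega
        rw [h4, h4]
    · rw [e1, e3, e4, hx2 b i _ h1 M le_rfl (by omega)]
      have h3 : Nat.pair (j0 i) M = dpos U M j0 i := by
        unfold dpos
        rw [if_neg hi]
      rw [h3]
      exact ex_dpos hU t b i

theorem decisive_lt {U : Bool → Fin n → K × Fin (n + 1)} (hU : Twin U) {M : ℕ} {j0 : Fin n → ℕ}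
    (hj0 : ∀ i, ¬ (U true i).2.1 < n →
      j0 i < n ∧ ∀ i', (U true i').1 = (U true i).1 → (U true i').2.1 ≠ j0 i)
    (t : Fin n → Bool) {x : K × ℕ → Bool}
    (hx1 : ∀ i, ∀ j < n, ∀ m < M, x ((U true i).1, Nat.pair j m) = x ((U false i).1, Nat.pair j m))
    (hx2 : ∀ b i, ∀ j < n, ∀ m, M ≤ m → m < M + 2 →
      x ((U b i).1, Nat.pair j m) = ex U M j0 t ((U b i).1, Nat.pair j m)) (i : Fin n) :
    (t i = false → LexLt (val x (U true i)) (val x (U false i))) ∧
      (t i = true → LexLt (val x (U false i)) (val x (U true i))) := by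
  obtain ⟨k, h1, h2⟩ := decisive hU hj0 t hx1 hx2 i
  constructor
  · intro ht
    refine ⟨k, h1, ?_, ?_⟩
    · rw [h2, ht]; rfl
    · rw [h2, ht]; rfl
  · intro ht
    refine ⟨k, fun m hm => (h1 m hm).symm, ?_, ?_⟩
    · rw [h2, ht]; rfl
    · rw [h2, ht]; rfl

end Pool.Agent.V11242.EN
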