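import Mathlib
import Pool.Agent.Helper292.SP.Lib
import Pool.Agent.V11242.EN.Core

/-!
# The family of names is entangled
-/

set_option autoImplicit false
set_option linter.unusedSectionVars false

namespace Pool.Agent.V11242.EN

open Pool.Agent.TH773.PSet Pool.Agent.V11242.RF MeasureTheory Set Filter Topology

open Pool.Agent.Helper292.SP (pigeon delta_sys)

section Comb

open Cardinal

theorem exists_two {E : Type} {T : Set E} {χ : Cardinal.{0}} (hχ : ℵ₀ ≤ χ) (hT : ¬ #T ≤ χ) :
    ∃ e ∈ T, ∃ e' ∈ T, e ≠ e' := by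
  have h1 : 1 < #T := (Cardinal.one_lt_aleph0.trans_le hχ).trans (not_le.mp hT)
  obtain ⟨⟨e, he⟩, ⟨e', he'⟩, hne⟩ := Cardinal.one_lt_iff_nontrivial.mp h1
  exact ⟨e, he, e', he', fun h => hne (Subtype.ext h)⟩

/-- Free pairs for set mappings with countable values on sets of size at least `ℵ₂`. -/
theorem free_pair {E : Type} {T : Set E} (hT : ¬ #T ≤ ℵ₁) (F : E → Set E)
    (hF : ∀ e ∈ T, (F e ∩ T).Countable) :
    ∃ e ∈ T, ∃ e' ∈ T, e ≠ e' ∧ e ∉ F e' ∧ e' ∉ F e := by
  obtain ⟨A, hAT, hA⟩ := Cardinal.le_mk_iff_exists_subset.1 (not_le.1 hT).le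
  have h1 : #(↑(A ∪ ⋃ e ∈ A, (F e ∩ T)) : Set E) ≤ ℵ₁ := by
    refine (mk_union_le _ _).trans (add_le_of_le (aleph0_le_aleph 1) hA.le ?_)
    rw [biUnion_eq_iUnion]
    refine (mk_iUnion_le_sum_mk).trans ((sum_le_sum _ (fun _ => ℵ₀) fun e => ?_).trans ?_)
    · exact (hF _ (hAT e.2)).le_aleph0
    · rw [sum_const', hA]
      exact (mul_aleph0_eq (aleph0_le_aleph 1)).le
  obtain ⟨e', he', hne⟩ : ∃ e' ∈ T, e' ∉ A ∪ ⋃ e ∈ A, (F e ∩ T) := by
    by_contra hcon
    push Not at hcon
    exact hT ((mk_le_mk_of_subset hcon).trans h1)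
  obtain ⟨e, he, hne2⟩ : ∃ e ∈ A, e ∉ F e' ∩ T := by
    by_contra hcon
    push Not at hcon
    have h2 := (mk_le_mk_of_subset hcon).trans (hF e' he').le_aleph0
    rw [hA] at h2
    exact absurd h2 (not_le.2 aleph0_lt_aleph_one)
  refine ⟨e, hAT he, e', he', ?_, fun h => hne2 ⟨h, hAT he⟩, fun h => hne (Or.inr ?_)⟩
  · rintro rfl
    exact hne (Or.inl he)
  · exact mem_biUnion he ⟨h, he'⟩

end Comb

variable {K : Type} {n : ℕ}

/-- the data attached to a condition which decides a tuple of indices -/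
structure Dat (n : ℕ) (r : Random K) (u : Fin n → K × Fin (n + 1)) where
  D : Finset (K × ℕ)
  v : K × ℕ → Bool
  M : ℕ
  small : coinProduct K (box D v \ r.1) ≤ (2 : ENNReal)⁻¹ ^ (4 * n * n + 2) *
    (2 : ENNReal)⁻¹ ^ D.card
  mem : ∀ i, ∀ j < n, ∀ m < M, ((u i).1, Nat.pair j m) ∈ D
  notMem : ∀ i, ∀ j < n, ∀ m, M ≤ m → ((u i).1, Nat.pair j m) ∉ D

theorem exists_dat (r : Random K) (u : Fin n → K × Fin (n + 1)) : Nonempty (Dat n r u) := by
  classical
  obtain ⟨D0, v0, h0⟩ := density r.2.1 r.2.2 (4 * n * n + 2)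
  obtain ⟨M, hM⟩ := (D0.image fun s => (Nat.unpair s.2).2).finite_toSet.bddAbove
  let E : Finset (K × ℕ) := (Finset.univ ×ˢ (Finset.range n ×ˢ Finset.range (M + 1))).image
    fun a : Fin n × (ℕ × ℕ) => ((u a.1).1, Nat.pair a.2.1 a.2.2)
  obtain ⟨v, h1, h2⟩ := refine_box r.2.1 (two_pow_ne_top _) h0 E
  refine ⟨⟨D0 ∪ E, v, M + 1, h2, fun i j hj m hm => ?_, fun i j hj m hm h => ?_⟩⟩
  · refine Finset.mem_union_right _ (Finset.mem_image.2 ⟨(i, (j, m)), ?_, rfl⟩)
    simp [hj, hm]
  · rcases Finset.mem_union.1 h with h | h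
    · have h3 : (Nat.unpair (Nat.pair j m)).2 ∈
          (↑(D0.image fun s => (Nat.unpair s.2).2) : Set ℕ) :=
        Finset.mem_coe.2 (Finset.mem_image.2 ⟨_, h, rfl⟩)
      have h4 := hM h3
      rw [Nat.unpair_pair] at h4
      simp only at h4
      omega
    · obtain ⟨⟨i', j', m'⟩, h3, h4⟩ := Finset.mem_image.1 h
      simp only [Finset.mem_product, Finset.mem_univ, Finset.mem_range, true_and] at h3
      have h5 : m' = m := (Nat.pair_eq_pair.1 (congrArg Prod.snd h4)).2
      omega

/-- If the data of two conditions fit together, then the two conditions have a common extension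
which forces that the pair of tuples has the type `t`. -/
theorem exists_common {r : Bool → Random K} {U : Bool → Fin n → K × Fin (n + 1)} (hU : Twin U)
    (d : ∀ b, Dat n (r b) (U b)) (hM : (d true).M = (d false).M)
    (hbits : ∀ i, ∀ j < n, ∀ m < (d true).M,
      (d true).v ((U true i).1, Nat.pair j m) = (d false).v ((U false i).1, Nat.pair j m))
    (hagree : ∀ s, s ∈ (d true).D → s ∈ (d false).D → (d true).v s = (d false).v s)
    (T : Bool → Set (K × ℕ)) (hT1 : ∀ b, Dep (T b) (r b).1) (hT2 : ∀ b, ∀ s ∈ (d b).D, s ∈ T b)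
    (hT3 : ∀ b i m, ((U b i).1, m) ∈ T b)
    (hT4 : ∀ b, ∀ s ∈ (d !b).D, s ∉ (d b).D → s ∉ T b)
    (t : Fin n → Bool) : ∃ q : Random K, (∀ b, q ≤ r b) ∧
      ∀ x ∈ q.1, ∀ i, (t i = false → LexLt (val x (U true i)) (val x (U false i))) ∧
        (t i = true → LexLt (val x (U false i)) (val x (U true i))) := by
  classical
  have hfree : ∀ i, ∃ j, ¬ (U true i).2.1 < n →
      j < n ∧ ∀ i', (U true i').1 = (U true i).1 → (U true i').2.1 ≠ j := by
    intro i
    by_cases hi : (U true i).2.1 < n
    · exact ⟨0, fun h => absurd hi h⟩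
    · obtain ⟨j, h1, h2⟩ := exists_free (u := U true) i hi
      exact ⟨j, fun _ => ⟨h1, h2⟩⟩
  choose j0 hj0 using hfree
  let M := (d true).M
  have hMb : ∀ b, (d b).M = M := by
    intro b
    cases b
    · exact hM.symm
    · rfl
  let Ex : Bool → Finset (K × ℕ) := fun b =>
    (Finset.univ ×ˢ (Finset.range n ×ˢ (Finset.range 2))).image
      fun a : Fin n × (ℕ × ℕ) => ((U b a.1).1, Nat.pair a.2.1 (M + a.2.2))
  have hExcard : ∀ b, (Ex b).card ≤ 2 * n * n := by
    intro b
    refine Finset.card_image_le.trans (le_of_eq ?_)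
    rw [Finset.card_product, Finset.card_product, Finset.card_univ, Fintype.card_fin,
      Finset.card_range, Finset.card_range]
    ring
  let D0 := (d true).D ∪ (d false).D
  let D' := D0 ∪ (Ex true ∪ Ex false)
  let v' : K × ℕ → Bool := fun s => if s ∈ (d true).D then (d true).v s else
    if s ∈ (d false).D then (d false).v s else ex U M j0 t s
  have hv : ∀ b, ∀ s ∈ (d b).D, v' s = (d b).v s := by
    intro b s hs
    cases b
    · by_cases h : s ∈ (d true).D
      · have : v' s = (d true).v s := if_pos h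
        rw [this]
        exact hagree s h hs
      · have : v' s = (if s ∈ (d false).D then (d false).v s else ex U M j0 t s) := if_neg h
        rw [this, if_pos hs]
    · exact if_pos hs
  have hv' : ∀ s, s ∉ (d true).D → s ∉ (d false).D → v' s = ex U M j0 t s := by
    intro s h1 h2
    have : v' s = (if s ∈ (d false).D then (d false).v s else ex U M j0 t s) := if_neg h1
    rw [this, if_neg h2]
  -- the new positions are new
  have hnew : ∀ b i, ∀ j < n, ∀ m, M ≤ m → ∀ b', ((U b i).1, Nat.pair j m) ∉ (d b').D := by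
    intro b i j hj m hm b' hmem
    have h1 := (d b).notMem i j hj m (by rw [hMb]; exact hm)
    by_cases hb : b' = b
    · rw [hb] at hmem
      exact h1 hmem
    · have hb' : b' = !b := by cases b <;> cases b' <;> simp_all
      rw [hb'] at hmem
      exact hT4 b _ hmem h1 (hT3 b i _)
  -- the box is large relative to the two conditions
  have hsm : ∀ b, coinProduct K (box D0 v' \ (r b).1) ≤
      (2 : ENNReal)⁻¹ ^ (4 * n * n + 2) * (2 : ENNReal)⁻¹ ^ D0.card := by
    intro b
    have hD0 : D0 = (d b).D ∪ ((d !b).D \ (d b).D) := by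
      cases b
      · show (d true).D ∪ (d false).D = (d false).D ∪ ((d true).D \ (d false).D)
        rw [Finset.union_sdiff_self_eq_union, Finset.union_comm]
      · show (d true).D ∪ (d false).D = (d true).D ∪ ((d false).D \ (d true).D)
        rw [Finset.union_sdiff_self_eq_union]
    have e1 : box D0 v' \ (r b).1 = (box (d b).D (d b).v \ (r b).1) ∩
        box ((d !b).D \ (d b).D) v' := by
      rw [hD0]
      ext x
      simp only [box, Set.mem_sdiff, mem_ofPred_eq, mem_inter_iff, Finset.mem_union]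
      constructor
      · rintro ⟨h1, h2⟩
        exact ⟨⟨fun s hs => (h1 s (Or.inl hs)).trans (hv b s hs), h2⟩,
          fun s hs => h1 s (Or.inr hs)⟩
      · rintro ⟨⟨h1, h2⟩, h3⟩
        refine ⟨fun s hs => ?_, h2⟩
        rcases hs with hs | hs
        · exact (h1 s hs).trans (hv b s hs).symm
        · exact h3 s hs
    have hdep1 : Dep (T b) (box (d b).D (d b).v \ (r b).1) :=
      (dep_box _ (hT2 b) _).inter (hT1 b).compl
    have hdep2 : Dep (T b)ᶜ (box ((d !b).D \ (d b).D) v') := by
      refine dep_box _ (fun s hs => ?_) _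
      obtain ⟨h1, h2⟩ := Finset.mem_sdiff.1 hs
      exact hT4 b s h1 h2
    have e2 : (2 : ENNReal)⁻¹ ^ (4 * n * n + 2) * (2 : ENNReal)⁻¹ ^ D0.card =
        ((2 : ENNReal)⁻¹ ^ (4 * n * n + 2) * (2 : ENNReal)⁻¹ ^ (d b).D.card) *
          (2 : ENNReal)⁻¹ ^ ((d !b).D \ (d b).D).card := by
      rw [hD0, Finset.card_union_of_disjoint Finset.disjoint_sdiff,
        pow_add (2 : ENNReal)⁻¹ (d b).D.card]
      exact (mul_assoc _ _ _).symm
    rw [e1, dep_indep disjoint_compl_right hdep1 hdep2, measure_box, e2]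
    exact mul_le_mul_left (d b).small _
  have hsm2 : coinProduct K (box D0 v' \ ((r true).1 ∩ (r false).1)) ≤
      (2 : ENNReal)⁻¹ ^ (4 * n * n + 1) * (2 : ENNReal)⁻¹ ^ D0.card := by
    have e1 : box D0 v' \ ((r true).1 ∩ (r false).1) =
        (box D0 v' \ (r true).1) ∪ (box D0 v' \ (r false).1) := by
      rw [Set.sdiff_inter]
    rw [e1]
    refine (measure_union_le _ _).trans ((add_le_add (hsm true) (hsm false)).trans ?_)
    rw [← add_mul, pow_succ (2 : ENNReal)⁻¹ (4 * n * n + 1), ← mul_add,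
      ENNReal.inv_two_add_inv_two, mul_one]
  have hcard : D'.card ≤ D0.card + 4 * n * n := by
    have h1 := Finset.card_union_le D0 (Ex true ∪ Ex false)
    have h2 := Finset.card_union_le (Ex true) (Ex false)
    have h3 := hExcard true
    have h4 := hExcard false
    have h5 : D'.card = (D0 ∪ (Ex true ∪ Ex false)).card := rfl
    have h6 : 4 * n * n = 2 * n * n + 2 * n * n := by ring
    omega
  have hpos := pos_of_small (D' := D') (v' := v') Finset.subset_union_left (fun _ _ => rfl)
    hsm2 hcard (Nat.lt_succ_self _)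
  refine ⟨RF.mk _ ((((r true).2.1.inter (r false).2.1)).inter (measurable_box D' v')) hpos,
    fun b => RF.mk_le _ _ fun x hx => ?_, fun x hx i => ?_⟩
  · cases b
    · exact hx.1.2
    · exact hx.1.1
  · have hxb : ∀ s ∈ D', x s = v' s := hx.2
    refine decisive_lt hU hj0 t (M := M) (fun i j hj m hm => ?_) (fun b i j hj m h1 h2 => ?_) i
    · have h1 := (d true).mem i j hj m hm
      have h2 := (d false).mem i j hj m (by rw [← hM]; exact hm)
      rw [hxb _ (Finset.mem_union_left _ (Finset.mem_union_left _ h1)),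
        hxb _ (Finset.mem_union_left _ (Finset.mem_union_right _ h2)), hv true _ h1,
        hv false _ h2]
      exact hbits i j hj m hm
    · have h3 : ((U b i).1, Nat.pair j m) ∈ Ex b := by
        refine Finset.mem_image.2 ⟨(i, (j, m - M)), ?_, ?_⟩
        · simp only [Finset.mem_product, Finset.mem_univ, Finset.mem_range, true_and]
          omega
        · simp only
          rw [Nat.add_sub_cancel' h1]
      have h4 : ((U b i).1, Nat.pair j m) ∈ D' := by
        refine Finset.mem_union_right _ ?_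
        cases b
        · exact Finset.mem_union_right _ h3
        · exact Finset.mem_union_left _ h3
      rw [hxb _ h4]
      exact hv' _ (hnew b i j hj m h1 true) (hnew b i j hj m h1 false)

end Pool.Agent.V11242.EN
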