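import Mathlib
import Pool.Agent.V11242.EN.Ent

/-!
# The family of names is entangled: the main argument
-/

set_option autoImplicit false
set_option linter.unusedSectionVars false

namespace Pool.Agent.V11242.EN

open Pool.Agent.TH773.PSet Pool.Agent.V11242.RF MeasureTheory Set Filter Topology Cardinal

open Pool.Agent.Helper292.SP (pigeon delta_sys)

variable {K : Type} {n : ℕ}

theorem reg_typeAt {P : Type} [Preorder P] {S : Type} (e : S → ℕ → Set P) (t : Fin n → Bool)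
    (u v : Fin n → S) (i : Fin n) : Reg (TypeAt e t u v i) := by
  unfold TypeAt
  cases t i
  · exact reg_lt _ _
  · exact reg_fnot (reg_lt _ _).1

theorem exists_pair (hK : ¬ #K ≤ ℵ₁) {r : K → Random K} {u : K → Fin n → K × Fin (n + 1)}
    (hinj : ∀ ξ, Function.Injective (u ξ))
    (hinc : ∀ ξ η, ξ ≠ η → (∃ i j, u ξ i = u η j) → ¬ ∃ s, s ≤ r ξ ∧ s ≤ r η)
    (t : Fin n → Bool) : ∃ ξ η, ξ ≠ η ∧ ∃ q : Random K, q ≤ r ξ ∧ q ≤ r η ∧
      ∀ x ∈ q.1, ∀ i, (t i = false → LexLt (val x (u ξ i)) (val x (u η i))) ∧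
        (t i = true → LexLt (val x (u η i)) (val x (u ξ i))) := by
  classical
  have hℵ : (ℵ₀ : Cardinal.{0}) ≤ ℵ₁ := aleph0_le_aleph 1
  have d : ∀ ξ, Dat n (r ξ) (u ξ) := fun ξ => Classical.choice (exists_dat (r ξ) (u ξ))
  choose T0 hT0 hT0' using fun ξ => exists_countable (r ξ).2.1
  let T : K → Set (K × ℕ) := fun ξ => T0 ξ ∪ ((d ξ).D : Set (K × ℕ)) ∪
    ⋃ i : Fin n, range fun m : ℕ => ((u ξ i).1, m)
  have hTc : ∀ ξ, (T ξ).Countable := fun ξ =>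
    ((hT0 ξ).union (Finset.countable_toSet _)).union (countable_iUnion fun i => countable_range _)
  -- the first pigeonhole argument
  let f1 : K → ℕ × (Fin n → Fin (n + 1)) × (Fin n → Fin n → Bool) × Finset (Fin n × (ℕ × ℕ)) :=
    fun ξ => ((d ξ).M, fun i => (u ξ i).2, fun i i' => decide ((u ξ i).1 = (u ξ i').1),
      (Finset.univ ×ˢ (Finset.range n ×ˢ Finset.range (d ξ).M)).filter fun a =>
        (d ξ).v ((u ξ a.1).1, Nat.pair a.2.1 a.2.2) = true)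
  obtain ⟨T1, z1, -, hT1, hz1⟩ := pigeon hℵ (univ : Set K) (by rwa [mk_univ]) f1
    ((mk_le_aleph0).trans hℵ)
  have hf1 : ∀ ξ ∈ T1, ∀ η ∈ T1, f1 ξ = f1 η := fun ξ hξ η hη => (hz1 ξ hξ).trans (hz1 η hη).symm
  -- the delta system
  let Z : K → Set ((K × ℕ) ⊕ K) := fun ξ =>
    (Sum.inl '' ((d ξ).D : Set (K × ℕ))) ∪ (Sum.inr '' range fun i => (u ξ i).1)
  have hZ : ∀ ξ, (Z ξ).Finite := fun ξ =>
    ((Finset.finite_toSet _).image _).union ((finite_range _).image _)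
  obtain ⟨T2, R, hT21, hT2, hR⟩ := delta_sys (σ := ℵ₀) hℵ hℵ (by
    intro τ hτ
    obtain ⟨m, rfl⟩ := Cardinal.lt_aleph0.mp hτ
    exact Cardinal.power_nat_le hℵ) T1 hT1 Z (fun ξ => (hZ ξ).lt_aleph0)
  have hRsub : ∀ ξ ∈ T2, R ⊆ Z ξ := by
    intro ξ hξ
    obtain ⟨a, ha, b, hb, hne⟩ := exists_two hℵ hT2
    by_cases h : ξ = a
    · subst h
      rw [← hR ξ hξ b hb hne]
      exact inter_subset_left
    · rw [← hR ξ hξ a ha h]
      exact inter_subset_left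
  have hRfin : R.Finite := by
    obtain ⟨a, ha, b, hb, hne⟩ := exists_two hℵ hT2
    exact (hZ a).subset (hRsub a ha)
  let R' : Set (K × ℕ) := Sum.inl ⁻¹' R
  have hR'fin : R'.Finite := hRfin.preimage Sum.inl_injective.injOn
  have hR'D : ∀ ξ ∈ T2, ∀ s ∈ R', s ∈ (d ξ).D := by
    intro ξ hξ s hs
    rcases hRsub ξ hξ hs with ⟨s', h1, h2⟩ | ⟨s', _, h2⟩
    · rw [← Sum.inl_injective h2]
      exact h1
    · exact absurd h2 (by simp)
  have hDR' : ∀ ξ ∈ T2, ∀ η ∈ T2, ξ ≠ η → ∀ s, s ∈ (d ξ).D → s ∈ (d η).D → s ∈ R' := by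
    intro ξ hξ η hη hne s h1 h2
    show Sum.inl s ∈ R
    rw [← hR ξ hξ η hη hne]
    exact ⟨Or.inl ⟨s, h1, rfl⟩, Or.inl ⟨s, h2, rfl⟩⟩
  -- the second pigeonhole argument
  have : Finite R' := hR'fin
  obtain ⟨T3, z3, hT32, hT3, hz3⟩ := pigeon hℵ T2 hT2
    (fun ξ => fun s : R' => (d ξ).v s.1) ((mk_le_aleph0).trans hℵ)
  have hv : ∀ ξ ∈ T3, ∀ η ∈ T3, ∀ s ∈ R', (d ξ).v s = (d η).v s := by
    intro ξ hξ η hη s hs
    exact congrFun ((hz3 ξ hξ).trans (hz3 η hη).symm) ⟨s, hs⟩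
  -- the blocks are disjoint
  have hdisj : ∀ ξ ∈ T3, ∀ η ∈ T3, ξ ≠ η → ∀ i j, (u ξ i).1 ≠ (u η j).1 := by
    intro ξ hξ η hη hne i j hij
    have h1 : (Sum.inr (u ξ i).1 : (K × ℕ) ⊕ K) ∈ R := by
      rw [← hR ξ (hT32 hξ) η (hT32 hη) hne]
      exact ⟨Or.inr ⟨_, ⟨i, rfl⟩, rfl⟩, Or.inr ⟨_, ⟨j, rfl⟩, by rw [hij]⟩⟩
    have h2 : ∀ ζ, ∃ i' : Fin n, ζ ∈ T3 → (u ζ i').1 = (u ξ i).1 := by
      intro ζ
      by_cases hζ : ζ ∈ T3
      · rcases hRsub ζ (hT32 hζ) h1 with ⟨s', _, h2⟩ | ⟨s', ⟨i', hi'⟩, h2⟩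
        · exact absurd h2 (by simp)
        · refine ⟨i', fun _ => ?_⟩
          rw [← Sum.inr_injective h2]
          exact hi'
      · exact ⟨i, fun h => absurd h hζ⟩
    choose k hk using h2
    obtain ⟨T4, z4, hT43, hT4, hz4⟩ := pigeon hℵ T3 hT3 k ((mk_le_aleph0).trans hℵ)
    have h3 : Countable T4 := by
      refine countable_of_incomp (fun ζ : T4 => r ζ.1) ?_
      rintro ⟨ζ, hζ⟩ ⟨ζ', hζ'⟩ hne'
      refine hinc ζ ζ' (fun h => hne' (Subtype.ext h)) ⟨z4, z4, ?_⟩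
      have h4 := hk ζ (hT43 hζ)
      have h5 := hk ζ' (hT43 hζ')
      rw [hz4 ζ hζ] at h4
      rw [hz4 ζ' hζ'] at h5
      refine Prod.ext (h4.trans h5.symm) ?_
      exact congrFun (congrArg (fun a => a.2.1)
        (hf1 ζ (hT21 (hT32 (hT43 hζ))) ζ' (hT21 (hT32 (hT43 hζ'))))) z4
    exact hT4 ((Cardinal.mk_le_aleph0_iff.2 h3).trans hℵ)
  -- a free pair
  obtain ⟨ξ, hξ, η, hη, hne, hfr1, hfr2⟩ := free_pair hT3
    (fun ξ => {η | ∃ s, s ∈ (d η).D ∧ s ∉ R' ∧ s ∈ T ξ}) (by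
      intro ξ _
      have hsub : {η | ∃ s, s ∈ (d η).D ∧ s ∉ R' ∧ s ∈ T ξ} ∩ T3 ⊆
          ⋃ s ∈ T ξ, {η | s ∈ (d η).D ∧ s ∉ R' ∧ η ∈ T3} := by
        rintro η ⟨⟨s, h1, h2, h3⟩, h4⟩
        exact mem_biUnion h3 ⟨h1, h2, h4⟩
      refine ((hTc ξ).biUnion fun s _ => ?_).mono hsub
      refine Set.Subsingleton.countable ?_
      rintro η ⟨h1, h2, h3⟩ η' ⟨h1', _, h3'⟩
      by_contra hne
      exact h2 (hDR' η (hT32 h3) η' (hT32 h3') hne s h1 h1'))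
  have hfe := hf1 ξ (hT21 (hT32 hξ)) η (hT21 (hT32 hη))
  have hfM : (d ξ).M = (d η).M := congrArg (fun a => a.1) hfe
  have hf2 : ∀ i, (u ξ i).2 = (u η i).2 := fun i => congrFun (congrArg (fun a => a.2.1) hfe) i
  have hf3 : ∀ i i', (u ξ i).1 = (u ξ i').1 ↔ (u η i).1 = (u η i').1 := by
    intro i i'
    have h1 := congrFun (congrFun (congrArg (fun a => a.2.2.1) hfe) i) i'
    exact decide_eq_decide.1 h1
  have hf4 : ∀ i, ∀ j < n, ∀ m < (d ξ).M,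
      (d ξ).v ((u ξ i).1, Nat.pair j m) = (d η).v ((u η i).1, Nat.pair j m) := by
    intro i j hj m hm
    have h1 := congrArg (fun a => a.2.2.2) hfe
    have h2 := Finset.ext_iff.1 h1 (i, (j, m))
    simp only [f1, Finset.mem_filter, Finset.mem_product, Finset.mem_univ, Finset.mem_range,
      true_and, hj, hm, hfM ▸ hm] at h2
    exact Bool.eq_iff_iff.2 h2
  let pr : Bool → K := fun b => cond b ξ η
  have hpr : ∀ b, pr b ∈ T3 := by
    intro b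
    cases b
    · exact hη
    · exact hξ
  have hprne : ∀ b, pr b ≠ pr (!b) := by
    intro b
    cases b
    · exact hne.symm
    · exact hne
  obtain ⟨q, hq1, hq2⟩ := exists_common (r := fun b => r (pr b)) (U := fun b => u (pr b))
    { inj := fun b => hinj _
      disj := fun i j => hdisj ξ hξ η hη hne i j
      same := hf2
      pat := hf3 } (fun b => d (pr b)) hfM hf4
    (fun s h1 h2 => hv ξ hξ η hη s (hDR' ξ (hT32 hξ) η (hT32 hη) hne s h1 h2))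
    (fun b => T (pr b))
    (fun b => (hT0' (pr b)).mono (subset_union_left.trans subset_union_left))
    (fun b s hs => Or.inl (Or.inr (Finset.mem_coe.2 hs)))
    (fun b i m => Or.inr (mem_iUnion.2 ⟨i, ⟨m, rfl⟩⟩))
    (fun b s hs hs' hsT => by
      have h1 : s ∉ R' := fun h => hs' (hR'D _ (hT32 (hpr b)) s h)
      cases b
      · exact hfr1 ⟨s, hs, h1, hsT⟩
      · exact hfr2 ⟨s, hs, h1, hsT⟩) t
  exact ⟨ξ, η, hne, q, hq1 true, hq1 false, hq2⟩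

theorem entangledFamily (hK : ¬ #K ≤ ℵ₁) (p : Random K) :
    p ∈ EntangledFamily K (en (K := K) (n := n)) n := by
  intro w
  refine mem_fimp.2 fun q0 _ hq0 => ⟨q0, le_rfl, fun t => mem_fex.2 fun q hq => ?_⟩
  obtain ⟨hfun, hdis⟩ := hq0
  have h1 : ∀ ξ, ∃ r ≤ q, ∃ u, r ∈ meets (w ξ u) := fun ξ => mem_fex.1 (hfun.1 ξ) q hq
  choose r hr u hu using h1
  have hinj : ∀ ξ, Function.Injective (u ξ) := by
    intro ξ
    by_contra hne
    exact hdis.1 ξ (u ξ) hne (r ξ) ((hr ξ).trans hq) (hu ξ)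
  have hinc : ∀ ξ η, ξ ≠ η → (∃ i j, u ξ i = u η j) → ¬ ∃ s, s ≤ r ξ ∧ s ≤ r η := by
    rintro ξ η hne hij ⟨s, hs1, hs2⟩
    exact hdis.2 ξ η hne (u ξ) (u η) hij s (hs1.trans ((hr ξ).trans hq))
      ⟨(reg_meets _).1 _ (hu ξ) _ hs1, (reg_meets _).1 _ (hu η) _ hs2⟩
  obtain ⟨ξ, η, hne, q', hq1, hq2, hq3⟩ := exists_pair hK hinj hinc t
  have hle : q' ≤ q := hq1.trans (hr ξ)
  refine ⟨q', hle, ξ, mem_fex_of η fun q2 h2 => mem_fex_of hne fun q3 h3 u' v' => ?_⟩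
  refine mem_fimp.2 fun s hs hsu => ⟨s, le_rfl, fun i => ?_⟩
  have hsq' : s ≤ q' := hs.trans (h3.trans h2)
  have hsq0 : s ≤ q0 := hsq'.trans (hle.trans hq)
  have hu' : u' = u ξ := by
    by_contra hne'
    exact hfun.2 ξ u' (u ξ) hne' s hsq0 ⟨hsu.1, (reg_meets _).1 _ (hu ξ) _ (hsq'.trans hq1)⟩
  have hv' : v' = u η := by
    by_contra hne'
    exact hfun.2 η v' (u η) hne' s hsq0 ⟨hsu.2, (reg_meets _).1 _ (hu η) _ (hsq'.trans hq2)⟩
  rw [hu', hv']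
  refine (reg_typeAt _ _ _ _ _).1 q' ?_ s hsq'
  unfold TypeAt
  cases ht : t i
  · show q' ∈ Lt (en (u ξ i)) (en (u η i))
    rw [lt_en, mem_AE_iff]
    exact ae_of_all _ fun x hx => (hq3 x hx i).1 ht
  · show q' ∈ fnot (Lt (en (u ξ i)) (en (u η i)))
    rw [lt_en, fnot_AE (measurable_lex _ _), mem_AE_iff]
    exact ae_of_all _ fun x hx => not_lexLt ((hq3 x hx i).2 ht)

end Pool.Agent.V11242.EN
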