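import Mathlib
import Pool.Agent.V11242.EN.Main

/-!
# The size of the continuum and an eventually different family in the random extension
-/

set_option autoImplicit false
set_option linter.unusedSectionVars false

namespace Pool.Agent.V11242.EN

open Pool.Agent.TH773.PSet Pool.Agent.V11242.RF MeasureTheory Set Filter Topology Cardinal

open Pool.Agent.Helper292.SP (pigeon)

variable {K : Type}

/-! ### The continuum -/

theorem generate : (MeasurableSpace.pi : MeasurableSpace (K × ℕ → Bool)) =
    MeasurableSpace.generateFrom (range fun t : K × ℕ => {x : K × ℕ → Bool | x t = true}) := by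
  apply le_antisymm
  · refine iSup_le fun t => ?_
    rintro _ ⟨A, -, rfl⟩
    have h1 : MeasurableSet[MeasurableSpace.generateFrom
        (range fun t : K × ℕ => {x : K × ℕ → Bool | x t = true})]
        {x : K × ℕ → Bool | x t = true} := MeasurableSpace.measurableSet_generateFrom ⟨t, rfl⟩
    by_cases ht : true ∈ A <;> by_cases hf : false ∈ A
    · have : (fun x : K × ℕ → Bool => x t) ⁻¹' A = Set.univ := by
        ext x
        cases hx : x t <;> simp [hx, ht, hf]
      rw [this]
      exact @MeasurableSet.univ _ (MeasurableSpace.generateFrom _)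
    · have : (fun x : K × ℕ → Bool => x t) ⁻¹' A = {x | x t = true} := by
        ext x
        cases hx : x t <;> simp [hx, ht, hf]
      rw [this]
      exact h1
    · have : (fun x : K × ℕ → Bool => x t) ⁻¹' A = {x | x t = true}ᶜ := by
        ext x
        cases hx : x t <;> simp [hx, ht, hf]
      rw [this]
      exact @MeasurableSet.compl _ _ (MeasurableSpace.generateFrom _) h1
    · have : (fun x : K × ℕ → Bool => x t) ⁻¹' A = ∅ := by
        ext x
        cases hx : x t <;> simp [hx, ht, hf]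
      rw [this]
      exact @MeasurableSet.empty _ (MeasurableSpace.generateFrom _)
  · refine MeasurableSpace.generateFrom_le ?_
    rintro _ ⟨t, rfl⟩
    exact measurable_coord t true

theorem mk_measurable (hK : ℵ₀ ≤ #K) (hpow : #K ^ ℵ₀ = #K) :
    #{s : Set (K × ℕ → Bool) // MeasurableSet s} ≤ #K := by
  have h1 : #{s : Set (K × ℕ → Bool) // MeasurableSet s} =
      #{s : Set (K × ℕ → Bool) | MeasurableSet[MeasurableSpace.generateFrom
        (range fun t : K × ℕ => {x : K × ℕ → Bool | x t = true})] s} := by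
    have e : {s : Set (K × ℕ → Bool) | MeasurableSet[MeasurableSpace.generateFrom
        (range fun t : K × ℕ => {x : K × ℕ → Bool | x t = true})] s} =
        {s : Set (K × ℕ → Bool) | MeasurableSet s} := by
      rw [generate]
    rw [e]
    rfl
  rw [h1]
  refine (MeasurableSpace.cardinal_measurableSet_le _).trans ?_
  calc _ ≤ #K ^ ℵ₀ := by
        refine power_le_power_right (max_le ?_ ?_)
        · refine mk_range_le.trans ?_
          rw [mk_prod]
          simp only [lift_uzero, mk_nat]
          exact (mul_le_mul' le_rfl hK).trans (mul_eq_self hK).le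
        · exact (natCast_lt_aleph0 (n := 2)).le.trans hK
    _ = #K := hpow

theorem everyReal (hK : ℵ₀ ≤ #K) (hpow : #K ^ ℵ₀ = #K) (p : Random K) :
    p ∈ EveryReal (Random K) K := by
  classical
  let N := ℕ → {s : Set (K × ℕ → Bool) // MeasurableSet s}
  have hN : #N ≤ #K := by
    have : #N = #{s : Set (K × ℕ → Bool) // MeasurableSet s} ^ ℵ₀ := by simp [N]
    rw [this]
    exact (power_le_power_right (mk_measurable hK hpow)).trans hpow.le
  have hne : Nonempty N := ⟨fun _ => ⟨univ, MeasurableSet.univ⟩⟩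
  obtain ⟨g⟩ : Nonempty (N ↪ K) := hN
  refine mem_fex_of (fun k => hat (coinProduct K) fun m => (Function.invFun g k m).1)
    fun q _ x => ?_
  obtain ⟨X, hX, hX'⟩ := exists_rep x
  refine mem_fex_of (g fun m => ⟨X m, hX m⟩) fun r _ m => ?_
  have e1 : meets (hat (coinProduct K)
      (fun m => (Function.invFun g (g fun m => ⟨X m, hX m⟩) m).1) m) = meets (x m) := by
    rw [Function.leftInverse_invFun g.injective, hX']
    exact meets_hat hX m
  show r ∈ SameBit x (hat (coinProduct K)
    (fun m => (Function.invFun g (g fun m => ⟨X m, hX m⟩) m).1)) m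
  unfold SameBit
  rw [e1]
  exact ⟨mem_fimp.2 fun s _ hs => ⟨s, le_rfl, hs⟩, mem_fimp.2 fun s _ hs => ⟨s, le_rfl, hs⟩⟩

/-! ### Cardinals -/

theorem noOnto {L : Type} (hL : ℵ₀ ≤ #L) (hLK : #L < #K) (p : Random K) :
    p ∈ NoOnto (Random K) L K := by
  intro q _ hq
  obtain ⟨r, hr, R, hR1, hR2⟩ := mem_fex.1 hq q le_rfl
  have h1 : ∀ k, ∃ s ≤ r, ∃ l, s ∈ meets (R l k) := fun k => mem_fex.1 (hR2 k) r le_rfl
  choose s hs l hl using h1
  obtain ⟨T, z, -, hT, hz⟩ := pigeon hL (univ : Set K) (by
    rw [mk_univ]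
    exact not_le.2 hLK) l le_rfl
  have h3 : Countable T := by
    refine countable_of_incomp (fun k : T => s k.1) ?_
    rintro ⟨k, hk⟩ ⟨k', hk'⟩ hne ⟨t, ht1, ht2⟩
    have h4 := hl k
    have h5 := hl k'
    rw [hz k hk] at h4
    rw [hz k' hk'] at h5
    exact hR1.2 z k k' (fun h => hne (Subtype.ext h)) t (ht1.trans (hs k))
      ⟨(reg_meets _).1 _ h4 _ ht1, (reg_meets _).1 _ h5 _ ht2⟩
  exact hT ((Cardinal.mk_le_aleph0_iff.2 h3).trans hL)

/-! ### The eventually different family -/

/-- the set of the points at which the bit `j` of the block `m` of the real `l` is `1` -/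
def bt (l : K) (m j : ℕ) : Set (K × ℕ → Bool) := {x | x (l, Nat.pair m j) = true}

open Classical in
/-- the value at `m` of the function given by the real with index `l` -/
noncomputable def fv (l : K) (m : ℕ) (x : K × ℕ → Bool) : ℕ :=
  Encodable.encode ((Finset.range m).filter fun j => x ∈ bt l m j)

theorem dep_fv (l : K) (m v : ℕ) : Dep {t : K × ℕ | t.1 = l} {x | fv l m x = v} := by
  classical
  have : {x | fv l m x = v} = ⋃ S : Finset ℕ, ⋃ (_ : Encodable.encode S = v),
      {x | ((Finset.range m).filter fun j => x ∈ bt l m j) = S} := by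
    ext x
    simp only [fv, mem_ofPred_eq, mem_iUnion, exists_prop]
    constructor
    · intro h
      exact ⟨_, h, rfl⟩
    · rintro ⟨S, h, rfl⟩
      exact h
  rw [this]
  refine Dep.iUnion fun S => Dep.iUnion fun _ => dep_filter (b := bt l m) (fun j => ?_) _ S
  exact dep_coord (T := {t : K × ℕ | t.1 = l}) (t := (l, Nat.pair m j)) (by simp)

theorem measure_fv (l : K) (m v : ℕ) :
    coinProduct K {x | fv l m x = v} ≤ (2 : ENNReal)⁻¹ ^ m := by
  classical
  by_cases h : ∃ x0, fv l m x0 = v
  · obtain ⟨x0, h0⟩ := h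
    let D : Finset (K × ℕ) := (Finset.range m).image fun j => (l, Nat.pair m j)
    have hD : D.card = m := by
      rw [Finset.card_image_of_injective, Finset.card_range]
      intro a b hab
      exact (Nat.pair_eq_pair.1 (congrArg Prod.snd hab)).2
    have hsub : {x | fv l m x = v} ⊆ box D x0 := by
      intro x hx t ht
      obtain ⟨j, hj, rfl⟩ := Finset.mem_image.1 ht
      have h1 : fv l m x = fv l m x0 := Eq.trans hx h0.symm
      have h2 := Finset.ext_iff.1 (Encodable.encode_injective h1) j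
      simp only [Finset.mem_filter, hj, true_and, bt, mem_ofPred_eq] at h2
      exact Bool.eq_iff_iff.2 h2
    refine (measure_mono hsub).trans ?_
    rw [measure_box, hD]
  · have : {x | fv l m x = v} = ∅ := by
      ext x
      simp only [mem_ofPred_eq, mem_empty_iff_false, iff_false]
      exact fun hx => h ⟨x, hx⟩
    rw [this, measure_empty]
    exact bot_le

/-- the name of the function given by the real with index `l` -/
def fn (l : K) (m v : ℕ) : Set (Random K) := AE (coinProduct K) {x | fv l m x = v}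

theorem meets_fn (l : K) (m v : ℕ) : meets (fn l m v) = AE (coinProduct K) {x | fv l m x = v} :=
  meets_AE (dep_fv l m v).meas

theorem isFun_fn (l : K) (p : Random K) : p ∈ IsFun (fn l) := by
  constructor
  · intro m
    show p ∈ fex fun v => meets (fn l m v)
    simp only [meets_fn]
    rw [fex_AE fun v => (dep_fv l m v).meas, mem_AE_iff]
    exact ae_of_all _ fun x _ => mem_iUnion.2 ⟨fv l m x, rfl⟩
  · intro m v v' hne
    show p ∈ fnot (fand (meets (fn l m v)) (meets (fn l m v')))
    rw [meets_fn, meets_fn, fand_AE, fnot_AE ((dep_fv l m v).meas.inter (dep_fv l m v').meas),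
      mem_AE_iff]
    refine ae_of_all _ fun x _ hx => hne ?_
    exact hx.1.symm.trans hx.2

theorem evDifferent_aux {g : ℕ → ℕ → Set (Random K)} {q : Random K} (hg : q ∈ IsFun g)
    {T : Set (K × ℕ)} (hq : Dep T q.1) (hT : ∀ m v, Dep T (rep (g m v))) (l : K)
    (hl : ∀ t ∈ T, t.1 ≠ l) : ∀ᵐ x ∂(coinProduct K), x ∈ q.1 →
      ∃ N, ∀ m, N ≤ m → ∀ v, ¬ (fv l m x = v ∧ x ∈ rep (g m v)) := by
  let A : ℕ → Set (K × ℕ → Bool) := fun m => ⋃ v, (q.1 ∩ rep (g m v)) ∩ {x | fv l m x = v}
  have hdisj : Disjoint T {t : K × ℕ | t.1 = l} :=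
    Set.disjoint_left.2 fun t h1 h2 => hl t h1 h2
  have hg' := mem_isFun.1 hg
  have h1 : ∀ m, coinProduct K (A m) ≤ (2 : ENNReal)⁻¹ ^ m := by
    intro m
    refine (measure_iUnion_le _).trans ?_
    have h2 : ∀ v, coinProduct K ((q.1 ∩ rep (g m v)) ∩ {x | fv l m x = v}) ≤
        coinProduct K (q.1 ∩ rep (g m v)) * (2 : ENNReal)⁻¹ ^ m := by
      intro v
      rw [dep_indep hdisj (hq.inter (hT m v)) (dep_fv l m v)]
      exact mul_le_mul_right (measure_fv l m v) _
    refine (ENNReal.tsum_le_tsum h2).trans ?_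
    rw [ENNReal.tsum_mul_right]
    have h3 : ∑' v, coinProduct K (q.1 ∩ rep (g m v)) ≤ 1 := by
      rw [← measure_iUnion₀]
      · exact prob_le_one
      · intro v v' hne
        show coinProduct K ((q.1 ∩ rep (g m v)) ∩ (q.1 ∩ rep (g m v'))) = 0
        refine measure_eq_zero_iff_ae_notMem.2 ?_
        filter_upwards [hg'] with x hx hx'
        exact hne ((hx hx'.1.1 m).unique hx'.1.2 hx'.2.2)
      · exact fun v => (q.2.1.inter (measurable_rep _)).nullMeasurableSet
    calc _ ≤ 1 * (2 : ENNReal)⁻¹ ^ m := mul_le_mul_left h3 _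
      _ = _ := one_mul _
  have hs : ∑' m, coinProduct K (A m) ≠ ⊤ :=
    ne_top_of_le_ne_top tsum_two (ENNReal.tsum_le_tsum h1)
  filter_upwards [ae_eventually_notMem hs] with x hx hxq
  obtain ⟨N, hN⟩ := eventually_atTop.1 hx
  refine ⟨N, fun m hm v hv => hN m hm ?_⟩
  exact mem_iUnion.2 ⟨v, ⟨hxq, hv.2⟩, hv.1⟩

theorem evDifferent {L : Type} (hL : ℵ₀ < #L) (e : L ↪ K) (p : Random K) :
    p ∈ EvDifferent (Random K) L := by
  classical
  refine mem_fex_of (fun l => fn (e l)) fun q _ => ⟨fun l => isFun_fn (e l) q, fun g => ?_⟩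
  refine mem_fimp.2 fun r _ hg => ⟨r, le_rfl, mem_fex.2 fun s hs => ?_⟩
  have hg' := (reg_isFun g).1 _ hg _ hs
  obtain ⟨T0, hT0, hT0'⟩ := exists_countable s.2.1
  choose T1 hT1 hT1' using fun (m v : ℕ) => exists_countable (measurable_rep (g m v))
  let T : Set (K × ℕ) := T0 ∪ ⋃ m, ⋃ v, T1 m v
  have hT : T.Countable := hT0.union (countable_iUnion fun m => countable_iUnion (hT1 m))
  obtain ⟨l, hl⟩ : ∃ l, e l ∉ Prod.fst '' T := by
    by_contra hcon
    push Not at hcon
    have h1 : Countable L := by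
      have h2 : (e ⁻¹' (Prod.fst '' T)).Countable :=
        (hT.image _).preimage_of_injOn e.injective.injOn
      rw [eq_univ_of_forall (s := e ⁻¹' (Prod.fst '' T)) hcon] at h2
      exact countable_univ_iff.1 h2
    exact absurd (Cardinal.mk_le_aleph0_iff.2 h1) (not_le.2 hL)
  refine ⟨s, le_rfl, l, ?_⟩
  have h1 := evDifferent_aux hg' (T := T) (hT0'.mono subset_union_left) (fun m v =>
    (hT1' m v).mono (subset_union_of_subset_right
      (subset_iUnion_of_subset m (subset_iUnion_of_subset v le_rfl)) T0)) (e l)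
    fun t ht h => hl ⟨t, ht, h⟩
  have e1 : ∀ N : ℕ, (fall fun m : ℕ => fall fun _ : N ≤ m => fall fun v =>
      fnot (fand (meets (fn (e l) m v)) (meets (g m v)))) =
      AE (coinProduct K) (⋂ m : ℕ, ⋂ (_ : N ≤ m), ⋂ v : ℕ,
        ({x | fv (e l) m x = v} ∩ rep (g m v))ᶜ) := by
    intro N
    simp only [← fall_AE]
    refine congrArg fall (funext fun m => congrArg fall (funext fun _ => congrArg fall
      (funext fun v => ?_)))
    rw [meets_fn, meets_rep, fand_AE, fnot_AE ((dep_fv _ _ _).meas.inter (measurable_rep _))]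
  show s ∈ fex fun N : ℕ => fall fun m : ℕ => fall fun _ : N ≤ m => fall fun v =>
      fnot (fand (meets (fn (e l) m v)) (meets (g m v)))
  simp only [e1]
  rw [fex_AE, mem_AE_iff]
  · filter_upwards [h1] with x h2 h3
    obtain ⟨N, hN⟩ := h2 h3
    refine mem_iUnion.2 ⟨N, ?_⟩
    simp only [mem_iInter]
    exact fun m hm v hv => hN m hm v hv
  · intro N
    exact MeasurableSet.iInter fun m => MeasurableSet.iInter fun _ => MeasurableSet.iInter
      fun v => ((dep_fv _ _ _).meas.inter (measurable_rep _)).compl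

theorem exists_forcing : ∃ (K L P : Type) (_ : Preorder P), Nonempty P ∧
    (∀ A : Set P, (∀ p ∈ A, ∀ q ∈ A, p ≠ q → ¬ ∃ r, r ≤ p ∧ r ≤ q) → A.Countable) ∧
    ∀ p : P, p ∈ PhiHolds P K L := by
  let K : Type := ((2 : Cardinal.{0}) ^ (ℵ₁ : Cardinal.{0})).out
  let L : Type := (ℵ₁ : Cardinal.{0}).out
  have hK : #K = (2 : Cardinal.{0}) ^ (ℵ₁ : Cardinal.{0}) := mk_out _
  have hL : #L = (ℵ₁ : Cardinal.{0}) := mk_out _
  have hlt : #L < #K := by
    rw [hK, hL]
    exact cantor _
  have hL0 : ℵ₀ < #L := by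
    rw [hL]
    exact aleph0_lt_aleph_one
  have hpow : #K ^ ℵ₀ = #K := by
    rw [hK, ← power_mul, mul_aleph0_eq (aleph0_le_aleph 1)]
  have hK0 : ℵ₀ ≤ #K := hL0.le.trans hlt.le
  obtain ⟨e⟩ : Nonempty (L ↪ K) := hlt.le
  refine ⟨K, L, Random K, inferInstance, ⟨RF.mk Set.univ MeasurableSet.univ (by simp)⟩, ?_,
    fun p => ⟨everyReal hK0 hpow p, noOnto hL0.le hlt p, evDifferent hL0 e p, fun n hn => ?_⟩⟩
  · intro A hA
    refine RF.countable_of_incomp (μ := coinProduct K) (fun p : A => p.1) fun p q hpq => ?_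
    exact hA p.1 p.2 q.1 q.2 fun h => hpq (Subtype.ext h)
  · refine mem_fex_of en fun q _ => ⟨distinct hn q, avoidsType (by omega) q,
      entangledFamily ?_ q⟩
    rw [← hL]
    exact not_le.2 hlt

end Pool.Agent.V11242.EN
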